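import Pool.Agent.R277.SP.CasA
import Pool.Agent.Y941.RO.CUTV

/-!
# Rank one perturbations of scalar type operators on Banach spaces: the vectors of case B
-/

set_option autoImplicit false

namespace Pool.Agent.R277.SP

open MeasureTheory Set Metric Filter Topology
open scoped ENNReal NNReal ComplexConjugate ContDiff InnerProductSpace
open Pool.Agent.Y283.NK (ct IsMul HasHyp)
open Pool.Agent.Y271.RO (db ht Bd ff S_HT S_CTG S_POM Star mv Cut)
open Pool.Agent.Y941.RO (CO lim_int)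

variable {E : Type} [NormedAddCommGroup E] [NormedSpace ℂ E] {K : Set ℂ}
  [CompactSpace K] {Φ : C(K, ℂ) →ₐ[ℂ] (E →L[ℂ] E)} {N : E →L[ℂ] E} {M : ℝ}
  {μ : Measure K} [IsFiniteMeasure μ] {w d : Lp ℂ 2 μ}

/-- the measure of `(Φ(χ) x, v)` -/
lemma Mo.cut {x : E} {v : E →L[ℂ] ℂ} (hm : Mo Φ x v μ w d) {χ : ℂ → ℂ} (hχ : Continuous χ)
    (hχb : ∀ z, ‖χ z‖ ≤ 1) :
    ∃ d' : Lp ℂ 2 μ, (∀ᵐ s : K ∂μ, d' s = χ s * d s) ∧ Mo Φ (Φ (cK K χ) x) v μ w d' := by
  have e := Pool.Agent.Y510.RO.MV.mv_ae (φ := (Subtype.val : K → ℂ)) val_meas d χ 1 hχ.measurable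
    (fun s => hχb s)
  refine ⟨mv (Subtype.val : K → ℂ) d χ, e, hm.one, fun h => ?_⟩
  have h2 : Φ h (Φ (cK K χ) x) = Φ (h * cK K χ) x := by
    rw [map_mul]; rfl
  rw [h2, hm.eq]
  refine integral_congr_ae ?_
  filter_upwards [e] with s hs
  rw [hs, ContinuousMap.mul_apply, cK_apply hχ]
  ring

lemma K_bound {a : ℂ} {τ : ℝ} (hτ : 0 < τ) (hd : ∀ᵐ s : K ∂μ, (s : ℂ) ∉ ball a (τ / 2) → d s = 0) :
    ∃ B : ℝ, 0 ≤ B ∧ ∀ z, τ ≤ ‖z - a‖ → ‖ct (Subtype.val : K → ℂ) w d z‖ ≤ B := by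
  have hi : Integrable (fun s : K => 2 / τ * ‖conj (w s) * d s‖) μ := by
    have h1 : Integrable (fun s => ⟪w s, d s⟫_ℂ) μ := L2.integrable_inner w d
    refine (h1.norm.const_mul (2 / τ)).congr (Eventually.of_forall fun s => ?_)
    show 2 / τ * ‖⟪w s, d s⟫_ℂ‖ = _
    rw [RCLike.inner_apply, mul_comm (d s)]
  refine ⟨∫ s : K, 2 / τ * ‖conj (w s) * d s‖ ∂μ, integral_nonneg fun s => by positivity,
    fun z hz => ?_⟩
  unfold ct
  refine norm_integral_le_of_norm_le hi ?_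
  filter_upwards [hd] with s hs
  by_cases hb : (s : ℂ) ∈ ball a (τ / 2)
  · rw [norm_mul, mul_comm (2 / τ)]
    refine mul_le_mul_of_nonneg_left ?_ (norm_nonneg _)
    rw [norm_inv]
    rw [mem_ball, dist_eq_norm] at hb
    have h1 : τ / 2 ≤ ‖z - s‖ := by
      have : ‖z - a‖ ≤ ‖z - s‖ + ‖(s : ℂ) - a‖ := by
        have := norm_add_le (z - s) ((s : ℂ) - a)
        rwa [sub_add_sub_cancel] at this
      linarith
    calc ‖z - s‖⁻¹ ≤ (τ / 2)⁻¹ := inv_anti₀ (by positivity) h1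
      _ = 2 / τ := by rw [inv_div]
  · rw [hs hb]
    simp

lemma pair_pow {a : ℂ} {τ r : ℝ} {Θ : ℂ → ℂ} (h : CO Θ a τ r) (hτ : 0 < τ) (hr : 0 < r)
    (hw : ∀ᵐ s : K ∂μ, w s = 1)
    (hd : ∀ᵐ s : K ∂μ, (s : ℂ) ∉ ball a (τ / 2) → d s = 0) (k : ℕ) :
    Integrable (fun z => (z - a) ^ k * db Θ z * ct (Subtype.val : K → ℂ) w d z) ∧
      ∫ z, (z - a) ^ k * db Θ z * ct (Subtype.val : K → ℂ) w d z =
        -(Real.pi * ∫ s : K, ((s : ℂ) - a) ^ k * d s ∂μ) := by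
  obtain ⟨B, hB⟩ := h.bd hPOM (fun z => (z - a) ^ k) (by fun_prop) (r ^ k) (by positivity)
    (fun z _ hz => by
      rw [norm_pow]
      exact pow_le_pow_left₀ (norm_nonneg _) hz k)
  obtain ⟨-, -, hf⟩ := hCTG K μ Subtype.val val_meas w d
  obtain ⟨f1, f2⟩ := hf a (r + 1) B _ hB
  refine ⟨f1, ?_⟩
  rw [← f2, ← integral_const_mul, ← integral_neg]
  apply integral_congr_ae
  filter_upwards [hw, hd] with s hs1 hs
  by_cases hb : (s : ℂ) ∈ ball a (τ / 2)
  · have hb' : (s : ℂ) ∈ ball a τ := ball_subset_ball (by linarith) hb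
    rw [h.ht_pow hPOM, h.one _ hb', hs1]
    simp only [map_one, one_mul, mul_one]
    ring
  · rw [hs hb]
    ring

lemma pair_inv {a : ℂ} {τ r : ℝ} {Θ : ℂ → ℂ} (h : CO Θ a τ r) (hτ : 0 < τ) (hr : 0 < r)
    (hd : ∀ᵐ s : K ∂μ, (s : ℂ) ∉ ball a (τ / 2) → d s = 0) :
    Integrable (fun z => (z - a)⁻¹ * db Θ z * ct (Subtype.val : K → ℂ) w d z) ∧
      ∫ z, (z - a)⁻¹ * db Θ z * ct (Subtype.val : K → ℂ) w d z = 0 := by
  obtain ⟨B, hB⟩ := h.bd hPOM (fun z => (z - a)⁻¹) (by fun_prop) τ⁻¹ (by positivity)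
    (fun z hz _ => by
      rw [norm_inv]
      exact inv_anti₀ hτ hz)
  obtain ⟨-, -, hf⟩ := hCTG K μ Subtype.val val_meas w d
  obtain ⟨f1, f2⟩ := hf a (r + 1) B _ hB
  refine ⟨f1, ?_⟩
  rw [← f2]
  rw [integral_eq_zero_of_ae]
  filter_upwards [hd] with s hs
  by_cases hb : (s : ℂ) ∈ ball a (τ / 2)
  · have hb' : (s : ℂ) ∈ ball a τ := ball_subset_ball (by linarith) hb
    rw [h.ht_inv hHT hPOM hτ hr _ hb']
    simp
  · rw [hs hb]
    simp

/-- the vectors of case B -/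
theorem vecB (hF : FC Φ N M) {u : E} {v : E →L[ℂ] ℂ} (hm : Mo Φ u v μ w d)
    {T : E →L[ℂ] E} (hT : ∀ x, T x = N x + v x • u) {a : ℂ} {τ r : ℝ} (hτ : 0 < τ) (hτr : τ < r)
    (hcut : Cut (ff (Subtype.val : K → ℂ) d w) a τ r) (x : E) {χ : ℂ → ℂ} (hχ : Continuous χ)
    (hχb : ∀ z, ‖χ z‖ ≤ 1) (hχ0 : ∀ z, z ∉ ball a (τ / 2) → χ z = 0) :
    ∃ (P : ℕ → E) (h : ℕ → ℕ → C(K, ℂ)) (Z : ℕ → C(K, ℂ)) (C : ℝ), P 0 = Φ (cK K χ) x ∧
      (∀ k, ‖P k‖ ≤ C * r ^ k) ∧ (∀ n k, ‖h n k‖ ≤ C * r ^ k) ∧ (∀ n, ‖Z n‖ ≤ C) ∧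
      (∀ k, Tendsto (fun n => T (P k + Φ (h n k) u) - a • (P k + Φ (h n k) u) -
        (P (k + 1) + Φ (h n (k + 1)) u)) atTop (𝓝 0)) ∧
      Tendsto (fun n => P 0 - (P 0 + Φ (h n 0) u) - (T (Φ (Z n) u) - a • Φ (Z n) u)) atTop (𝓝 0) := by
  classical
  obtain ⟨Θ, g, C, c1, c2, c3, c4, c5, c6, c7, c8⟩ := hcut
  have hr : 0 < r := hτ.trans hτr
  have hC0 : 0 ≤ C := (norm_nonneg _).trans (c5 0 0)
  have hΘ : ∀ n, CO (Θ n) a τ r := fun n => ⟨(c1 n).of_le (by exact_mod_cast le_top), c2 n, c3 n⟩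
  -- the measure of `x`
  obtain ⟨μ', i1, i2, w', d₀, hm₀⟩ := hF.mo x v
  obtain ⟨d', hd', hm'⟩ := hm₀.cut hχ hχb
  have hd0 : ∀ᵐ s : K ∂μ', (s : ℂ) ∉ ball a (τ / 2) → d' s = 0 := by
    filter_upwards [hd'] with s hs hb
    rw [hs, hχ0 _ hb, zero_mul]
  set k' : ℂ → ℂ := ct (Subtype.val : K → ℂ) w' d' with hk'
  have ctm : Measurable k' := (hCTG K μ' Subtype.val val_meas w' d').1
  obtain ⟨Kb, hKb0, kb⟩ := K_bound (w := w') hτ hd0
  -- the product of a bounded function with `g n` and `ct φ v x`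
  have hbd : ∀ (P : ℂ → ℂ) (B : ℝ), Measurable P → 0 ≤ B →
      (∀ z, τ ≤ ‖z - a‖ → ‖z - a‖ ≤ r → ‖P z‖ ≤ B) → ∀ n,
      Bd (fun z => P z * (g n z * k' z)) a r (B * (C * Kb)) := by
    intro P B hP hB0 hB n
    refine ⟨hP.mul ((c4 n).mul ctm), by positivity, ?_, ?_⟩
    · intro z
      by_cases h1 : z ∈ ball a τ
      · rw [c6 n z h1]
        simp only [zero_mul, mul_zero, norm_zero]
        positivity
      · rw [mem_ball, dist_eq_norm, not_lt] at h1
        by_cases h2 : ‖z - a‖ ≤ r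
        · rw [norm_mul, norm_mul]
          exact mul_le_mul (hB z h1 h2) (mul_le_mul (c5 n z) (kb z h1) (norm_nonneg _) hC0)
            (by positivity) hB0
        · rw [c7 n z (not_le.mp h2).le]
          simp only [zero_mul, mul_zero, norm_zero]
          positivity
    · intro z hz
      rw [mem_ball, dist_eq_norm, not_lt] at hz
      show P z * (g n z * k' z) = 0
      rw [c7 n z hz]
      ring
  have hbp : ∀ k n, Bd (fun z => (z - a) ^ k * (g n z * k' z)) a r (r ^ k * (C * Kb)) := by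
    intro k n
    exact hbd (fun z => (z - a) ^ k) (r ^ k) (by fun_prop) (by positivity)
      (fun z _ hz => by rw [norm_pow]; exact pow_le_pow_left₀ (norm_nonneg _) hz k) n
  have hbi : ∀ n, Bd (fun z => (z - a)⁻¹ * (g n z * k' z)) a r (τ⁻¹ * (C * Kb)) := by
    intro n
    exact hbd (fun z => (z - a)⁻¹) τ⁻¹ (by fun_prop) (by positivity)
      (fun z hz _ => by rw [norm_inv]; exact inv_anti₀ hτ hz) n
  -- the powers cut off
  set χk : ℕ → ℂ → ℂ := fun k z => (z - a) ^ k * χ z with hχk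
  have hχkc : ∀ k, Continuous (χk k) := fun k => by
    simp only [hχk]
    fun_prop
  have hχkb : ∀ k z, ‖χk k z‖ ≤ r ^ k := by
    intro k z
    by_cases hz : z ∈ ball a (τ / 2)
    · simp only [hχk, norm_mul, norm_pow]
      rw [mem_ball, dist_eq_norm] at hz
      calc ‖z - a‖ ^ k * ‖χ z‖ ≤ r ^ k * 1 :=
            mul_le_mul (pow_le_pow_left₀ (norm_nonneg _) (by linarith) k) (hχb z)
              (norm_nonneg _) (by positivity)
        _ = r ^ k := mul_one _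
    · simp only [hχk, hχ0 z hz, mul_zero, norm_zero]
      positivity
  set P : ℕ → E := fun k => Φ (cK K (χk k)) x with hP
  have hPstep : ∀ k, N (P k) - a • P k = P (k + 1) := by
    intro k
    have := hF.step (h := cK K (χk k)) (h' := cK K (χk (k + 1))) (a := a) (c := 0) (fun s => by
      rw [cK_apply (hχkc k), cK_apply (hχkc (k + 1))]
      simp only [hχk]
      ring) x
    rw [zero_smul, sub_zero] at this
    exact this
  have hPb : ∀ k, ‖P k‖ ≤ M * ‖x‖ * r ^ k := by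
    intro k
    refine (hF.bd_apply (B := r ^ k) (by positivity) (fun s => ?_) x).trans (le_of_eq (by ring))
    rw [cK_apply (hχkc k)]
    exact hχkb k _
  have hP0 : P 0 = Φ (cK K χ) x := by
    have : χk 0 = χ := by
      funext z
      simp only [hχk, pow_zero, one_mul]
    simp only [hP, this]
  have hvP : ∀ k, v (P k) = ∫ s : K, ((s : ℂ) - a) ^ k * d' s ∂μ' := by
    intro k
    simp only [hP]
    rw [hm₀.eq]
    refine integral_congr_ae ?_
    filter_upwards [hd'] with s hs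
    rw [cK_apply (hχkc k), hs]
    simp only [hχk]
    ring
  have hpi : (Real.pi : ℂ) ≠ 0 := by exact_mod_cast Real.pi_ne_zero
  have hpi' : ‖(1 / Real.pi : ℂ)‖ = 1 / Real.pi := by
    rw [norm_div, norm_one, Complex.norm_real, Real.norm_eq_abs, abs_of_pos Real.pi_pos]
  set f := ff (Subtype.val : K → ℂ) d w with hf
  -- integrals against the error
  have herr : ∀ (Q : ℂ → ℂ) (B : ℝ), 0 ≤ B →
      (∀ z, τ ≤ ‖z - a‖ → ‖z - a‖ ≤ r → ‖Q z‖ ≤ B) →
      Tendsto (fun n => ((1 / Real.pi : ℂ) *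
        ∫ z, (Q z * k' z) * (f z * g n z - db (Θ n) z)) • u) atTop (𝓝 0) := by
    intro Q B hB0 hB
    have h1 := lim_int hPOM Θ g hΘ c6 c7 c8 (fun z => Q z * k' z) (B * Kb)
      (by positivity) (fun z hz1 hz2 => by
        rw [norm_mul]
        exact mul_le_mul (hB z hz1 hz2) (kb z hz1) (norm_nonneg _) hB0)
    have h2 := (h1.const_mul (1 / Real.pi : ℂ)).smul_const u
    rwa [mul_zero, zero_smul] at h2
  obtain ⟨R, hR0, hR⟩ := hF.Y_bd hr
  have hΦY : ∀ (c : ℂ) (G : ℂ → ℂ), Φ (c • cK K (ht G)) u = c • Y Φ G u := by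
    intro c G
    rw [map_smul]
    rfl
  refine ⟨P, fun n k => (-(1 / Real.pi : ℂ)) • cK K (ht (fun z => (z - a) ^ k * (g n z * k' z))),
    fun n => (1 / Real.pi : ℂ) • cK K (ht (fun z => (z - a)⁻¹ * (g n z * k' z))),
    M * ‖x‖ + 1 / Real.pi * (R * (C * Kb)) + 1 / Real.pi * (R * (τ⁻¹ * (C * Kb))),
    hP0, ?_, ?_, ?_, ?_, ?_⟩
  · intro k
    refine (hPb k).trans ?_
    have hrk : 0 < r ^ k := by positivity
    have h1 : 0 ≤ 1 / Real.pi * (R * (C * Kb)) + 1 / Real.pi * (R * (τ⁻¹ * (C * Kb))) := by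
      positivity
    exact mul_le_mul_of_nonneg_right (by linarith) hrk.le
  · intro n k
    have h3 := (hR _ _ _ (hbp k n) u).2
    have hrk : 0 < r ^ k := by positivity
    have h4 : 0 ≤ M * ‖x‖ + 1 / Real.pi * (R * (τ⁻¹ * (C * Kb))) := by
      have := hF.nonneg
      positivity
    calc _ ≤ 1 / Real.pi * (R * (r ^ k * (C * Kb))) := by
          rw [norm_smul, norm_neg, hpi']
          gcongr
      _ = (1 / Real.pi * (R * (C * Kb))) * r ^ k := by ring
      _ ≤ _ := mul_le_mul_of_nonneg_right (by linarith) hrk.le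
  · intro n
    have h3 := (hR _ _ _ (hbi n) u).2
    have h4 : 0 ≤ M * ‖x‖ + 1 / Real.pi * (R * (C * Kb)) := by
      have := hF.nonneg
      positivity
    calc _ ≤ 1 / Real.pi * (R * (τ⁻¹ * (C * Kb))) := by
          rw [norm_smul, hpi']
          gcongr
      _ ≤ _ := by linarith
  · intro k
    have hl := herr (fun z => (z - a) ^ k) (r ^ k) (by positivity)
      (fun z _ hz => by rw [norm_pow]; exact pow_le_pow_left₀ (norm_nonneg _) hz k)
    refine hl.congr (fun n => ?_)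
    obtain ⟨i1, i2⟩ := hF.Y_step hm hT hr (hbp k n)
    obtain ⟨p1, p2⟩ := pair_pow (hΘ n) hτ hr hm'.one hd0 k
    have e1 : ∫ z, ((z - a) ^ k * k' z) * (f z * g n z - db (Θ n) z) =
        (∫ z, (z - a) ^ k * (g n z * k' z) * f z) + Real.pi * v (P k) := by
      have : ∀ z, ((z - a) ^ k * k' z) * (f z * g n z - db (Θ n) z) =
          (z - a) ^ k * (g n z * k' z) * f z - (z - a) ^ k * db (Θ n) z * k' z := fun z => by ring
      simp_rw [this]
      rw [integral_sub i1 p1, p2, hvP k]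
      ring
    have e3 : T (P k) - a • P k = P (k + 1) + v (P k) • u := by
      rw [hT, add_sub_right_comm, hPstep]
    have e4 : (fun z => (z - a) * ((z - a) ^ k * (g n z * k' z))) =
        fun z => (z - a) ^ (k + 1) * (g n z * k' z) := by
      funext z; ring
    rw [e4] at i2
    have e5 : (1 / Real.pi : ℂ) * ((∫ z, (z - a) ^ k * (g n z * k' z) * f z) + Real.pi * v (P k)) =
        (1 / Real.pi : ℂ) * (∫ z, (z - a) ^ k * (g n z * k' z) * f z) + v (P k) := by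
      field_simp
    rw [e1, e5, hΦY, hΦY, map_add, map_smul]
    rw [eq_add_of_sub_eq e3, eq_add_of_sub_eq i2]
    generalize (∫ z, (z - a) ^ k * (g n z * k' z) * f z) = I
    generalize Y Φ (fun z => (z - a) ^ k * (g n z * k' z)) u = y₁
    generalize Y Φ (fun z => (z - a) ^ (k + 1) * (g n z * k' z)) u = y₂
    module
  · have hl := herr (fun z => (z - a)⁻¹) τ⁻¹ (by positivity)
      (fun z hz _ => by rw [norm_inv]; exact inv_anti₀ hτ hz)
    refine hl.congr (fun n => ?_)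
    obtain ⟨i1, i2⟩ := hF.Y_step hm hT hr (hbi n)
    obtain ⟨p1, p2⟩ := pair_inv (w := w') (hΘ n) hτ hr hd0
    have e1 : ∫ z, ((z - a)⁻¹ * k' z) * (f z * g n z - db (Θ n) z) =
        ∫ z, (z - a)⁻¹ * (g n z * k' z) * f z := by
      have : ∀ z, ((z - a)⁻¹ * k' z) * (f z * g n z - db (Θ n) z) =
          (z - a)⁻¹ * (g n z * k' z) * f z - (z - a)⁻¹ * db (Θ n) z * k' z := fun z => by ring
      simp_rw [this]
      rw [integral_sub i1 p1, p2, sub_zero]
    have e4 : (fun z => (z - a) * ((z - a)⁻¹ * (g n z * k' z))) =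
        fun z => (z - a) ^ 0 * (g n z * k' z) := by
      funext z
      by_cases hz : z = a
      · rw [hz, c6 n a (mem_ball_self hτ)]
        simp
      · have : z - a ≠ 0 := sub_ne_zero.mpr hz
        field_simp
    rw [e4] at i2
    rw [e1, hΦY, hΦY, map_smul]
    rw [eq_add_of_sub_eq i2]
    generalize (∫ z, (z - a)⁻¹ * (g n z * k' z) * f z) = I
    generalize Y Φ (fun z => (z - a)⁻¹ * (g n z * k' z)) u = y₁
    generalize Y Φ (fun z => (z - a) ^ 0 * (g n z * k' z)) u = y₂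
    module

end Pool.Agent.R277.SP
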