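import Pool.Agent.R277.SP.CasA2
import Pool.Agent.R277.SP.CasB

/-!
# Rank one perturbations of scalar type operators on Banach spaces: the alternative
-/

set_option autoImplicit false

namespace Pool.Agent.R277.SP

open MeasureTheory Set Metric Filter Topology
open scoped ENNReal NNReal ComplexConjugate ContDiff InnerProductSpace
open Pool.Agent.Y283.NK (ct IsMul HasHyp)
open Pool.Agent.Y271.RO (db ht Bd ff S_HT S_CTG S_POM Star mv Cut Tun dich hPCA hPCB hPOL hALT hSMO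
  hTUNA hCUTA)
open Pool.Agent.Y941.RO (CO)

/-- bump functions -/
theorem exists_bump (a : ℂ) {s t : ℝ} (hs : 0 < s) (hst : s < t) : ∃ χ : ℂ → ℂ, ContDiff ℝ ∞ χ ∧
    (∀ z, ‖χ z‖ ≤ 1) ∧ (∀ z ∈ ball a s, χ z = 1) ∧ (∀ z, t ≤ ‖z - a‖ → z ∉ tsupport χ) := by
  let B : ContDiffBump a := ⟨s, (s + t) / 2, hs, by linarith⟩
  have hsup : tsupport (fun z => ((B z : ℝ) : ℂ)) ⊆ closedBall a ((s + t) / 2) := by
    refine closure_minimal ?_ isClosed_closedBall
    intro z hz
    have hz' : B z ≠ 0 := by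
      intro h0
      apply hz
      show ((B z : ℝ) : ℂ) = 0
      rw [h0]
      simp
    have h2 : z ∈ Function.support B := hz'
    rw [B.support_eq] at h2
    exact ball_subset_closedBall h2
  refine ⟨fun z => ((B z : ℝ) : ℂ), Complex.ofRealCLM.contDiff.comp B.contDiff, fun z => ?_,
    fun z hz => ?_, fun z hz h => ?_⟩
  · rw [Complex.norm_real, Real.norm_eq_abs, abs_of_nonneg B.nonneg]
    exact B.le_one
  · have h1 : B z = 1 := B.one_of_mem_closedBall (ball_subset_closedBall hz)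
    show ((B z : ℝ) : ℂ) = 1
    rw [h1]
    simp
  · have := hsup h
    rw [mem_closedBall, dist_eq_norm] at this
    linarith

theorem cut_one (a : ℂ) {τ r : ℝ} (hτ : 0 < τ) (hτr : τ < r) : Cut (fun _ => (1 : ℂ)) a τ r := by
  obtain ⟨Θ, h1, h2, h3, h4⟩ := exists_bump a hτ hτr
  have h5 : ∀ z, r ≤ ‖z - a‖ → Θ z = 0 := fun z hz => image_eq_zero_of_notMem_tsupport (h4 z hz)
  have hCO : CO Θ a τ r := ⟨h1.of_le (by exact_mod_cast le_top), h3, h5⟩
  obtain ⟨C, -, hC⟩ := hCO.db_bdd hPOM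
  refine ⟨fun _ => Θ, fun _ => db Θ, C, fun _ => h1, fun _ => h3, fun _ => h5, fun _ => ?_,
    fun _ => hC, fun _ z hz => hCO.db_in hPOM z hz, fun _ z hz => ?_, ?_⟩
  · exact (hPOM.2.2.2.2.1 Θ hCO.smooth).measurable
  · exact hPOM.2.2.2.2.2.2 Θ z (h4 z hz)
  · simp

variable {E : Type} [NormedAddCommGroup E] [NormedSpace ℂ E] {K : Set ℂ}
  [CompactSpace K] {Φ : C(K, ℂ) →ₐ[ℂ] (E →L[ℂ] E)} {N : E →L[ℂ] E} {M : ℝ}
  {μ : Measure K} [IsFiniteMeasure μ] {w d : Lp ℂ 2 μ}

omit [CompactSpace K] in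
lemma HC.mono {T : E →L[ℂ] E} {c : ℂ} {r r' : ℝ} (h : HC T c r) (h0 : 0 ≤ r) (hr : r ≤ r') :
    HC T c r' := by
  obtain ⟨X, ⟨h1, C, h2⟩, h3⟩ := h
  refine ⟨X, ⟨h1, |C|, fun k => (h2 k).trans ?_⟩, h3⟩
  calc C * r ^ k ≤ |C| * r ^ k := mul_le_mul_of_nonneg_right (le_abs_self C) (by positivity)
    _ ≤ |C| * r' ^ k := mul_le_mul_of_nonneg_left (pow_le_pow_left₀ h0 hr k) (abs_nonneg C)

/-- the part far from `a` -/
lemma FC.far (hF : FC Φ N M) (a : ℂ) {s : ℝ} (hs : 0 < s) {χ : ℂ → ℂ} (hχ : Continuous χ)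
    (h1 : ∀ z ∈ ball a s, χ z = 1) :
    ∃ h : C(K, ℂ), (∀ s : K, ((s : ℂ) - a) * h s = 1 - χ s) ∧
      ∀ x, N (Φ h x) - a • Φ h x = x - Φ (cK K χ) x := by
  have hc : Continuous (fun z => (1 - χ z) * (z - a)⁻¹) := by
    rw [continuous_iff_continuousAt]
    intro z
    by_cases hz : z ∈ ball a s
    · have : (fun z => (1 - χ z) * (z - a)⁻¹) =ᶠ[𝓝 z] fun _ => 0 := by
        filter_upwards [isOpen_ball.mem_nhds hz] with y hy
        rw [h1 y hy, sub_self, zero_mul]
      exact continuousAt_const.congr this.symm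
    · have hz' : z - a ≠ 0 := by
        intro h0
        apply hz
        rw [sub_eq_zero.1 h0]
        exact mem_ball_self hs
      exact (continuousAt_const.sub hχ.continuousAt).mul
        ((continuousAt_id.sub continuousAt_const).inv₀ hz')
  have hmul : ∀ z, (z - a) * ((1 - χ z) * (z - a)⁻¹) = 1 - χ z := by
    intro z
    by_cases hz : z = a
    · rw [hz, h1 a (mem_ball_self hs)]
      simp
    · have : z - a ≠ 0 := sub_ne_zero.2 hz
      field_simp
  refine ⟨cK K (fun z => (1 - χ z) * (z - a)⁻¹), fun s => ?_, fun x => ?_⟩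
  · rw [cK_apply hc, hmul]
  · have := hF.step (h := cK K (fun z => (1 - χ z) * (z - a)⁻¹)) (h' := -cK K χ) (a := a) (c := -1)
      (fun s => by
        rw [cK_apply hc, hmul, ContinuousMap.neg_apply, cK_apply hχ]
        ring) x
    rw [this, map_neg, neg_apply, neg_smul, one_smul]
    abel

/-- case B -/
theorem caseB (hF : FC Φ N M) {u : E} {v : E →L[ℂ] ℂ} (hm : Mo Φ u v μ w d)
    {T : E →L[ℂ] E} (hT : ∀ x, T x = N x + v x • u) {F : Set (E →L[ℂ] ℂ)} (hA : Adm T F)
    (hL : Lim Φ u F) {a : ℂ} {τ r : ℝ} (hτ : 0 < τ) (hτr : τ < r)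
    (hcut : Cut (ff (Subtype.val : K → ℂ) d w) a τ r) (hno : ¬ HC T a r) (x : E) :
    ∃ (W : E) (c : ℂ), x = T W - a • W + c • u := by
  obtain ⟨χ, h1, h2, h3, h4⟩ := exists_bump a (s := τ / 4) (t := τ / 2) (by positivity) (by linarith)
  have hr : 0 < r := hτ.trans hτr
  have hχ := h1.continuous
  have h5 : ∀ z, z ∉ ball a (τ / 2) → χ z = 0 := by
    intro z hz
    rw [mem_ball, dist_eq_norm, not_lt] at hz
    exact image_eq_zero_of_notMem_tsupport (h4 z hz)
  obtain ⟨ρ, -, hρ⟩ := hF.far a (s := τ / 4) (by positivity) hχ h3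
  obtain ⟨P, h, Z, C, e0, e1, e2, e3, e4, e5⟩ := vecB hF hm hT hτ hτr hcut x hχ h2 h5
  set U : Ultrafilter ℕ := Ultrafilter.of atTop with hU
  have hle : (U : Filter ℕ) ≤ atTop := Ultrafilter.of_le _
  have hC0 : 0 ≤ C := (norm_nonneg _).trans (e3 0)
  obtain ⟨X, hX, hXl⟩ := chain_lim hA U hle a r (M * C * ‖u‖) C P (fun n k => Φ (h n k) u) e1
    (fun k => by
      have hb : ∀ n, ‖Φ (h n k) u‖ ≤ M * C * ‖u‖ * r ^ k := fun n =>
        (hF.bd_apply (B := C * r ^ k) (by positivity)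
          (fun s => ((h n k).norm_coe_le_norm s).trans (e2 n k)) u).trans (le_of_eq (by ring))
      exact hL U (fun n => h n k) _ _ (fun n => e2 n k) hb) e4
  have hX0 : X 0 = 0 := by
    by_contra h0
    exact hno ⟨X, hX, h0⟩
  obtain ⟨W, -, hW⟩ := hL U Z C (M * C * ‖u‖) e3 (fun n =>
    hF.bd_apply hC0 (fun s => ((Z n).norm_coe_le_norm s).trans (e3 n)) u)
  have hPW : P 0 = T W - a • W := by
    rw [← sub_eq_zero]
    refine hA.sep _ fun f hf => ?_
    have l1 := hXl 0 f hf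
    rw [hX0, map_zero] at l1
    have l2 := hW _ (hA.inv f hf)
    have l3 := hW f hf
    have l4 : Tendsto (fun n => f (P 0 - (P 0 + Φ (h n 0) u) - (T (Φ (Z n) u) - a • Φ (Z n) u)))
        U (𝓝 0) := by
      have h2 := (f.continuous.tendsto 0).comp (e5.mono_left hle)
      rw [map_zero] at h2
      exact h2
    have l5 := (l1.const_sub (f (P 0))).sub (l2.sub (l3.const_mul a))
    have l6 := tendsto_nhds_unique l4 (l5.congr fun n => by
      simp only [map_sub, map_smul, smul_eq_mul, ContinuousLinearMap.comp_apply])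
    simp only [map_sub, map_smul, smul_eq_mul, ContinuousLinearMap.comp_apply] at l6 ⊢
    rw [l6]
    ring
  refine ⟨W + Φ ρ x, -v (Φ ρ x), ?_⟩
  have h6 := hρ x
  rw [← e0, hPW] at h6
  have h7 : N (Φ ρ x) = x - (T W - a • W) + a • Φ ρ x := eq_add_of_sub_eq h6
  rw [map_add, hT (Φ ρ x), h7]
  module

/-- the alternative -/
theorem alt (hF : FC Φ N M) {u : E} {v : E →L[ℂ] ℂ} {T : E →L[ℂ] E}
    (hT : ∀ x, T x = N x + v x • u) {F : Set (E →L[ℂ] ℂ)} (hA : Adm T F)
    (hv : ∀ c : C(K, ℂ), v.comp (Φ c) ∈ F) (hL : Lim Φ u F) (a : ℂ) {r : ℝ} (hr : 0 < r)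
    (hno : ¬ HC T a r) (x : E) : ∃ (W : E) (c : ℂ), x = T W - a • W + c • u := by
  obtain ⟨μ, i1, i2, w, d, hm⟩ := hF.mo u v
  by_cases hd : d = 0
  · have hf : ff (Subtype.val : K → ℂ) d w = fun _ => 1 := by
      funext z
      unfold ff ct
      have : ∫ s : K, conj (w s) * d s * (z - s)⁻¹ ∂μ = 0 := by
        rw [hd]
        rw [integral_eq_zero_of_ae]
        filter_upwards [Lp.coeFn_zero ℂ 2 μ] with s hs
        rw [hs]
        simp
      rw [this, sub_zero]
    exact caseB hF hm hT hA hL (a := a) (τ := r / 2) (by positivity) (by linarith)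
      (by rw [hf]; exact cut_one a (by positivity) (by linarith)) hno x
  by_cases hne : ∀ᵐ z ∂(volume.restrict (ball a (r / 2))), ff (Subtype.val : K → ℂ) d w z ≠ 0
  · obtain ⟨hfm, hfl⟩ := ff_meas (K := K) (w := w) (d := d)
    have hi : IntegrableOn (ff (Subtype.val : K → ℂ) d w) (ball a (r / 2)) :=
      (hfl.integrableOn_isCompact (isCompact_closedBall a (r / 2))).mono_set
        ball_subset_closedBall
    rcases dich hPCA hPCB hPOL hALT hSMO hTUNA hCUTA _ a (r / 2) (by positivity) hfm hi hne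
      with h | ⟨τ, h1, h2, h3⟩
    · exfalso
      have hno' : ¬ HC T a (r / 2) := fun h => hno (h.mono (by positivity) (by linarith))
      obtain ⟨B, hB⟩ : ∃ B : ℝ, ∀ s : K, ‖(s : ℂ)‖ ≤ B := by
        have hK : IsCompact K := isCompact_iff_compactSpace.2 inferInstance
        obtain ⟨B, hB⟩ := hK.isBounded.exists_norm_le
        exact ⟨B, fun s => hB s s.2⟩
      exact caseA val_meas ⟨B, hB⟩ d w hd a (r / 2) (by positivity) hne h
        (fun q C hq hqC hq0 => star_of hF hm hT hA hv hL (by positivity) hno' q C hq hqC hq0)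
    · have h2' : τ < r := by linarith
      have h3' : Cut (ff (Subtype.val : K → ℂ) d w) a τ r := by
        rwa [show 2 * (r / 2) = r by ring] at h3
      exact caseB hF hm hT hA hL h1 h2' h3' hno x
  · exact absurd ((zero_case hF hm hT (a := a) (r := r / 2) (by positivity) hne).mono (by positivity)
      (by linarith)) hno

end Pool.Agent.R277.SP
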