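import Pool.Agent.R277.SP.Def

/-!
# Rank one perturbations of scalar type operators on Banach spaces: the functional calculus
-/

set_option autoImplicit false

namespace Pool.Agent.R277.SP

open MeasureTheory Set Metric Filter Topology
open scoped ENNReal NNReal ComplexConjugate ContDiff
open Pool.Agent.Y283.NK (ct IsMul HasHyp)
open Pool.Agent.Y271.RO (db ht Bd ff S_HT S_CTG S_POM)

variable {E : Type} [NormedAddCommGroup E] [NormedSpace ℂ E]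

/-- chains: `X 0` lies in the local spectral subspace of the disc -/
def Ch (T : E →L[ℂ] E) (c : ℂ) (r : ℝ) (X : ℕ → E) : Prop :=
  (∀ k, T (X k) - c • X k = X (k + 1)) ∧ ∃ C : ℝ, ∀ k, ‖X k‖ ≤ C * r ^ k

/-- there is a nonzero chain -/
def HC (T : E →L[ℂ] E) (c : ℂ) (r : ℝ) : Prop := ∃ X, Ch T c r X ∧ X 0 ≠ 0

/-- the restriction of a continuous function to `K` -/
noncomputable def cK (K : Set ℂ) (h : ℂ → ℂ) : C(K, ℂ) := by
  classical exact if hh : Continuous h then ⟨fun s => h s, hh.comp continuous_subtype_val⟩ else 0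

lemma cK_apply {K : Set ℂ} {h : ℂ → ℂ} (hh : Continuous h) (s : K) : cK K h s = h s := by
  unfold cK
  rw [dif_pos hh]
  rfl

variable {K : Set ℂ}

/-- the function `z` -/
def zz (K : Set ℂ) : C(K, ℂ) := ⟨fun s => (s : ℂ), continuous_subtype_val⟩

/-- `Φ` is bounded and `Φ(z) = N` -/
structure FC [CompactSpace K] (Φ : C(K, ℂ) →ₐ[ℂ] (E →L[ℂ] E)) (N : E →L[ℂ] E) (M : ℝ) : Prop where
  nonneg : 0 ≤ M
  bd : ∀ h, ‖Φ h‖ ≤ M * ‖h‖
  id : Φ (zz K) = N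

variable [CompactSpace K] {Φ : C(K, ℂ) →ₐ[ℂ] (E →L[ℂ] E)} {N : E →L[ℂ] E} {M : ℝ}

lemma FC.step (hF : FC Φ N M) {h h' : C(K, ℂ)} {a c : ℂ} (he : ∀ s : K, (s - a) * h s = h' s - c)
    (x : E) : N (Φ h x) - a • Φ h x = Φ h' x - c • x := by
  have h1 : (zz K - a • (1 : C(K, ℂ))) * h = h' - c • (1 : C(K, ℂ)) := by
    ext s
    have := he s
    simp only [ContinuousMap.mul_apply, ContinuousMap.sub_apply, ContinuousMap.smul_apply,
      ContinuousMap.one_apply, smul_eq_mul, mul_one]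
    exact this
  have h2 := congrArg (fun g => Φ g x) h1
  simp only [map_mul, map_sub, map_smul, map_one, hF.id] at h2
  exact h2

lemma FC.comm (hF : FC Φ N M) (h : C(K, ℂ)) : N * Φ h = Φ h * N := by
  rw [← hF.id, ← map_mul, ← map_mul, mul_comm]

lemma FC.bd_apply (hF : FC Φ N M) {h : C(K, ℂ)} {B : ℝ} (hB : 0 ≤ B) (hb : ∀ s, ‖h s‖ ≤ B) (x : E) :
    ‖Φ h x‖ ≤ M * B * ‖x‖ := by
  refine ((Φ h).le_opNorm x).trans ?_
  refine mul_le_mul_of_nonneg_right ((hF.bd h).trans ?_) (norm_nonneg _)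
  exact mul_le_mul_of_nonneg_left ((ContinuousMap.norm_le _ hB).2 hb) hF.nonneg

/-- the measure `y(Φ(·) x)` is `d μ` -/
structure Mo [MeasurableSpace K] (Φ : C(K, ℂ) →ₐ[ℂ] (E →L[ℂ] E)) (x : E) (y : E →L[ℂ] ℂ) (μ : Measure K)
    (w d : Lp ℂ 2 μ) : Prop where
  one : ∀ᵐ s ∂μ, w s = 1
  eq : ∀ h : C(K, ℂ), y (Φ h x) = ∫ s, h s * d s ∂μ

lemma exists_one {S : Type} [MeasurableSpace S] (μ : Measure S) [IsFiniteMeasure μ] :
    ∃ w : Lp ℂ 2 μ, ∀ᵐ s ∂μ, w s = 1 := by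
  have h : MemLp (fun _ : S => (1 : ℂ)) 2 μ := memLp_const 1
  exact ⟨h.toLp _, h.coeFn_toLp⟩

lemma FC.mo (hF : FC Φ N M) (x : E) (y : E →L[ℂ] ℂ) :
    ∃ (μ : Measure K) (_ : IsFiniteMeasure μ) (_ : μ.Regular) (w d : Lp ℂ 2 μ), Mo Φ x y μ w d := by
  let ℓ : C(K, ℂ) →ₗ[ℂ] ℂ :=
    { toFun := fun h => y (Φ h x)
      map_add' := fun h h' => by simp
      map_smul' := fun c h => by simp }
  let ℓ' : StrongDual ℂ C(K, ℂ) := ℓ.mkContinuous (‖y‖ * (M * ‖x‖)) (fun h => by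
    have h1 : ‖Φ h x‖ ≤ M * ‖h‖ * ‖x‖ := hF.bd_apply (norm_nonneg _) (fun s => h.norm_coe_le_norm s) x
    calc ‖y (Φ h x)‖ ≤ ‖y‖ * ‖Φ h x‖ := y.le_opNorm _
      _ ≤ ‖y‖ * (M * ‖h‖ * ‖x‖) := by gcongr
      _ = ‖y‖ * (M * ‖x‖) * ‖h‖ := by ring)
  obtain ⟨μ, h1, h2, d, hd⟩ := Pool.Agent.H731R2.exists_density ℓ'
  obtain ⟨w, hw⟩ := exists_one μ
  exact ⟨μ, h1, h2, w, d, hw, hd⟩

variable {x : E} {y : E →L[ℂ] ℂ} {μ : Measure K} [IsFiniteMeasure μ] {w d : Lp ℂ 2 μ}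

omit [CompactSpace K] [IsFiniteMeasure μ] in
lemma val_meas : Measurable (Subtype.val : K → ℂ) := measurable_subtype_coe

lemma Mo.ht (hm : Mo Φ x y μ w d) {g : ℂ → ℂ} {c : ℂ} {r B : ℝ} (hg : Bd g c r B) :
    Integrable (fun z => g z * ct (Subtype.val : K → ℂ) w d z) ∧
      y (Φ (cK K (ht g)) x) = ∫ z, g z * ct (Subtype.val : K → ℂ) w d z := by
  obtain ⟨h1, h2⟩ := (hCTG K μ Subtype.val val_meas w d).2.2 c r B g hg
  refine ⟨h1, ?_⟩
  rw [← h2, hm.eq]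
  refine integral_congr_ae ?_
  filter_upwards [hm.one] with s hs
  rw [hs, cK_apply (ht_cont hg)]
  simp

/-- the vectors `(∫ g(z) / (z - N) dA) x` -/
noncomputable def Y (Φ : C(K, ℂ) →ₐ[ℂ] (E →L[ℂ] E)) (g : ℂ → ℂ) (x : E) : E := Φ (cK K (ht g)) x

omit [IsFiniteMeasure μ] in
/-- the basic formula -/
lemma FC.Y_step (hF : FC Φ N M) {u : E} {v : E →L[ℂ] ℂ} [IsFiniteMeasure μ] (hm : Mo Φ u v μ w d)
    {T : E →L[ℂ] E} (hT : ∀ x, T x = N x + v x • u) {g : ℂ → ℂ} {a : ℂ} {r B : ℝ}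
    (hr : 0 < r) (hg : Bd g a r B) :
    Integrable (fun z => g z * ff (Subtype.val : K → ℂ) d w z) ∧
      T (Y Φ g u) - a • Y Φ g u = Y Φ (fun z => (z - a) * g z) u -
        (∫ z, g z * ff (Subtype.val : K → ℂ) d w z) • u := by
  obtain ⟨R, hR0, hR⟩ := hHT r hr
  obtain ⟨i1, i2, i3, i4, i5⟩ := hR a B g hg
  have hb' : Bd (fun z => (z - a) * g z) a r (r * B) := by
    refine ⟨(measurable_id.sub_const a).mul hg.meas, mul_nonneg hr.le hg.nonneg, ?_, ?_⟩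
    · intro z
      rw [norm_mul]
      by_cases hz : z ∈ ball a r
      · rw [mem_ball, dist_eq_norm] at hz
        exact mul_le_mul hz.le (hg.bd z) (norm_nonneg _) hr.le
      · rw [hg.supp z hz, norm_zero, mul_zero]
        exact mul_nonneg hr.le hg.nonneg
    · intro z hz
      rw [hg.supp z hz, mul_zero]
  obtain ⟨f1, f2⟩ := hm.ht hg
  have hi : ∀ z, g z * ff (Subtype.val : K → ℂ) d w z =
      g z - g z * ct (Subtype.val : K → ℂ) w d z := fun z => by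
    unfold ff; ring
  refine ⟨?_, ?_⟩
  · simp_rw [hi]
    exact i1.sub f1
  · have e1 : ∫ z, g z * ff (Subtype.val : K → ℂ) d w z =
        (∫ z, g z) - ∫ z, g z * ct (Subtype.val : K → ℂ) w d z := by
      simp_rw [hi]
      exact integral_sub i1 f1
    have e2 := hF.step (h := cK K (ht g)) (h' := cK K (ht (fun z => (z - a) * g z))) (a := a)
      (c := ∫ z, g z) (fun s => by
        rw [cK_apply (ht_cont hg), cK_apply (ht_cont hb'), i5 a s]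
        ring) u
    rw [hT, e1, ← f2, sub_smul]
    unfold Y
    rw [add_sub_right_comm, e2]
    abel

lemma FC.Y_bd (hF : FC Φ N M) {r : ℝ} (hr : 0 < r) : ∃ R : ℝ, 0 ≤ R ∧ ∀ (a : ℂ) (B : ℝ) (g : ℂ → ℂ),
    Bd g a r B → ∀ u : E, ‖Y Φ g u‖ ≤ M * (R * B) * ‖u‖ ∧ ‖cK K (ht g)‖ ≤ R * B := by
  obtain ⟨R, hR0, hR⟩ := hHT r hr
  refine ⟨R, hR0, fun a B g hg u => ⟨?_, ?_⟩⟩
  · refine hF.bd_apply (mul_nonneg hR0 hg.nonneg) (fun s => ?_) u
    rw [cK_apply (ht_cont hg)]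
    exact (hR a B g hg).2.2.2.1 _
  · refine (ContinuousMap.norm_le _ (mul_nonneg hR0 hg.nonneg)).2 (fun s => ?_)
    rw [cK_apply (ht_cont hg)]
    exact (hR a B g hg).2.2.2.1 _

/-! ### Weak limits -/

/-- bounded sequences `Φ(h n) u` have limits along ultrafilters with respect to the functionals in `F` -/
def Lim (Φ : C(K, ℂ) →ₐ[ℂ] (E →L[ℂ] E)) (u : E) (F : Set (E →L[ℂ] ℂ)) : Prop :=
  ∀ (U : Ultrafilter ℕ) (h : ℕ → C(K, ℂ)) (B C : ℝ), (∀ n, ‖h n‖ ≤ B) → (∀ n, ‖Φ (h n) u‖ ≤ C) →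
    ∃ e : E, ‖e‖ ≤ C ∧ ∀ f ∈ F, Tendsto (fun n => f (Φ (h n) u)) U (𝓝 (f e))

/-- `F` separates the points and is invariant -/
structure Adm (T : E →L[ℂ] E) (F : Set (E →L[ℂ] ℂ)) : Prop where
  sep : ∀ e : E, (∀ f ∈ F, f e = 0) → e = 0
  inv : ∀ f ∈ F, f.comp T ∈ F

omit [CompactSpace K] in
lemma chain_lim {T : E →L[ℂ] E} {F : Set (E →L[ℂ] ℂ)} (hA : Adm T F) (U : Ultrafilter ℕ)
    (hU : (U : Filter ℕ) ≤ atTop) (c : ℂ) (r C C' : ℝ) (P : ℕ → E) (Z : ℕ → ℕ → E)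
    (hP : ∀ k, ‖P k‖ ≤ C' * r ^ k)
    (hL : ∀ k, ∃ e : E, ‖e‖ ≤ C * r ^ k ∧ ∀ f ∈ F, Tendsto (fun n => f (Z n k)) U (𝓝 (f e)))
    (h1 : ∀ k, Tendsto (fun n => T (P k + Z n k) - c • (P k + Z n k) - (P (k + 1) + Z n (k + 1)))
      atTop (𝓝 0)) :
    ∃ X : ℕ → E, Ch T c r X ∧ ∀ k, ∀ f ∈ F, Tendsto (fun n => f (P k + Z n k)) U (𝓝 (f (X k))) := by
  choose e he hl using hL
  have hX : ∀ k, ∀ f ∈ F, Tendsto (fun n => f (P k + Z n k)) U (𝓝 (f (P k + e k))) := by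
    intro k f hf
    simp only [map_add]
    exact (hl k f hf).const_add _
  refine ⟨fun k => P k + e k, ⟨fun k => ?_, C' + C, fun k => ?_⟩, hX⟩
  · rw [← sub_eq_zero]
    refine hA.sep _ fun f hf => ?_
    have e1 := ((hX k _ (hA.inv f hf)).sub ((hX k f hf).const_mul c)).sub (hX (k + 1) f hf)
    have e2 : Tendsto (fun n => f (T (P k + Z n k) - c • (P k + Z n k) - (P (k + 1) + Z n (k + 1))))
        U (𝓝 0) := by
      have h2 := (f.continuous.tendsto 0).comp ((h1 k).mono_left hU)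
      rw [map_zero] at h2
      exact h2
    have e3 := tendsto_nhds_unique e1 (e2.congr fun n => by
      simp only [map_sub, map_smul, smul_eq_mul, ContinuousLinearMap.comp_apply])
    simpa only [map_sub, map_smul, smul_eq_mul, ContinuousLinearMap.comp_apply] using e3
  · calc ‖P k + e k‖ ≤ C' * r ^ k + C * r ^ k := (norm_add_le _ _).trans (add_le_add (hP k) (he k))
      _ = (C' + C) * r ^ k := by ring

end Pool.Agent.R277.SP
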