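import Pool.Agent.R277.SP.Zero
import Pool.Agent.Y510.RO.MV

/-!
# Rank one perturbations of scalar type operators on Banach spaces: the vectors of case A
-/

set_option autoImplicit false

namespace Pool.Agent.R277.SP

open MeasureTheory Set Metric Filter Topology
open scoped ENNReal NNReal ComplexConjugate ContDiff InnerProductSpace
open Pool.Agent.Y283.NK (ct IsMul HasHyp)
open Pool.Agent.Y271.RO (db ht Bd ff S_HT S_CTG S_POM Star mv)

/-! ### scalar estimates -/

/-- the functions of case A -/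
theorem funA (a : ℂ) (r : ℝ) (hr : 0 < r) (ψ : ℂ → ℂ) (hψ : ContDiff ℝ ∞ ψ)
    (hψs : tsupport ψ ⊆ ball a r) (C : ℝ) : ∃ R : ℝ, 0 ≤ R ∧ ∀ q : ℂ → ℂ,
      ContDiff ℝ 1 q → (∀ z ∈ ball a r, ‖q z‖ ≤ C) →
      (∃ Me, Bd (fun z => ψ z * db q z) a r Me) ∧ (∃ Mg, Bd (fun z => q z * db ψ z) a r Mg) ∧
      (∀ k l, ‖ht (fun z => (z - a) ^ k * (ψ z * db q z)) l‖ ≤ R * r ^ k) ∧
      (∀ l, ‖q l * ψ l‖ ≤ R) ∧
      ∀ l, -(ht (fun z => ψ z * db q z) l) = ht (fun z => q z * db ψ z) l + Real.pi * (q l * ψ l) := by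
  obtain ⟨hP1, hP2, hP3, -, hP5, -, hP7⟩ := hPOM
  obtain ⟨K₀, hK₀, hHT'⟩ := hHT r hr
  have hψ1 : ContDiff ℝ 1 ψ := hψ.of_le (by exact_mod_cast le_top)
  have hψc : HasCompactSupport ψ :=
    Metric.isCompact_of_isClosed_isBounded (isClosed_tsupport ψ) (isBounded_ball.subset hψs)
  have hdψc : HasCompactSupport (db ψ) := HasCompactSupport.intro hψc fun z hz => hP7 ψ z hz
  obtain ⟨C₁, hC₁⟩ := hψc.exists_bound_of_continuous hψ1.continuous
  obtain ⟨C₂, hC₂⟩ := hdψc.exists_bound_of_continuous (hP5 ψ hψ1)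
  have hC₁0 : 0 ≤ C₁ := (norm_nonneg _).trans (hC₁ 0)
  have hC₂0 : 0 ≤ C₂ := (norm_nonneg _).trans (hC₂ 0)
  have hψ0 : ∀ z, z ∉ ball a r → ψ z = 0 := fun z hz =>
    image_eq_zero_of_notMem_tsupport fun h => hz (hψs h)
  have hdψ0 : ∀ z, z ∉ ball a r → db ψ z = 0 := fun z hz => hP7 ψ z fun h => hz (hψs h)
  refine ⟨(K₀ * (|C| * C₂) + Real.pi * (|C| * C₁)) + |C| * C₁, by positivity, ?_⟩
  intro q hq hqC
  have hqC' : ∀ z ∈ ball a r, ‖q z‖ ≤ |C| := fun z hz => (hqC z hz).trans (le_abs_self C)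
  have hdq := hP5 q hq
  -- the three functions
  set g : ℂ → ℂ := fun z => q z * db ψ z with hg
  set e : ℂ → ℂ := fun z => ψ z * db q z with he
  set χ : ℂ → ℂ := fun z => q z * ψ z with hχ
  have hgc : Continuous g := hq.continuous.mul (hP5 ψ hψ1)
  have hec : Continuous e := hψ1.continuous.mul hdq
  have hχc : ContDiff ℝ 1 χ := hq.mul hψ1
  have hes : HasCompactSupport e := hψc.mul_right
  obtain ⟨Me, hMe⟩ := hes.exists_bound_of_continuous hec
  have hMe0 : 0 ≤ Me := (norm_nonneg _).trans (hMe 0)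
  have hg0 : ∀ z, z ∉ ball a r → g z = 0 := fun z hz => by simp only [hg, hdψ0 z hz, mul_zero]
  have he0 : ∀ z, z ∉ ball a r → e z = 0 := fun z hz => by simp only [he, hψ0 z hz, zero_mul]
  have hχ0 : ∀ z, z ∉ ball a r → χ z = 0 := fun z hz => by simp only [hχ, hψ0 z hz, mul_zero]
  have hgb : ∀ z ∈ ball a r, ‖g z‖ ≤ |C| * C₂ := fun z hz => by
    simp only [hg, norm_mul]
    exact mul_le_mul (hqC' z hz) (hC₂ z) (norm_nonneg _) (abs_nonneg C)
  have hχb : ∀ z ∈ ball a r, ‖χ z‖ ≤ |C| * C₁ := fun z hz => by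
    simp only [hχ, norm_mul]
    exact mul_le_mul (hqC' z hz) (hC₁ z) (norm_nonneg _) (abs_nonneg C)
  have bd0 : ∀ {G : ℂ → ℂ} {B : ℝ}, 0 ≤ B → (∀ z, z ∉ ball a r → G z = 0) →
      (∀ z ∈ ball a r, ‖G z‖ ≤ B) → ∀ z, ‖G z‖ ≤ B := by
    intro G B hB h0 h1 z
    by_cases hz : z ∈ ball a r
    · exact h1 z hz
    · rw [h0 z hz, norm_zero]; exact hB
  have Bg0 : Bd g a r (|C| * C₂) := ⟨hgc.measurable, by positivity, bd0 (by positivity) hg0 hgb, hg0⟩
  have Be0 : Bd e a r Me := ⟨hec.measurable, hMe0, hMe, he0⟩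
  have Bχ0 : Bd χ a r (|C| * C₁) :=
    ⟨hχc.continuous.measurable, by positivity, bd0 (by positivity) hχ0 hχb, hχ0⟩
  have Bg : ∀ k : ℕ, Bd (fun z => (z - a) ^ k * g z) a r (r ^ k * (|C| * C₂)) := bdp hr Bg0
  have Be : ∀ k : ℕ, Bd (fun z => (z - a) ^ k * e z) a r (r ^ k * Me) := bdp hr Be0
  have Bχ : ∀ k : ℕ, Bd (fun z => (z - a) ^ k * χ z) a r (r ^ k * (|C| * C₁)) := bdp hr Bχ0
  -- the product rule
  have hdb : ∀ (k : ℕ) (z : ℂ), db (fun z => (z - a) ^ k * χ z) z =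
      (z - a) ^ k * g z + (z - a) ^ k * e z := by
    intro k z
    have hF : DifferentiableAt ℂ (fun z : ℂ => (z - a) ^ k) z := by fun_prop
    rw [hP2 (fun z => (z - a) ^ k) χ z (hF.restrictScalars ℝ)
      (hχc.differentiable one_ne_zero z), hP3 _ z hF, zero_mul, zero_add]
    have h1 : db χ z = db q z * ψ z + q z * db ψ z :=
      hP2 q ψ z (hq.differentiable one_ne_zero z) (hψ1.differentiable one_ne_zero z)
    rw [h1]
    simp only [hg, he]
    ring
  -- the formula of Cauchy and Pompeiu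
  have hkey : ∀ (k : ℕ) (l : ℂ), -(ht (fun z => (z - a) ^ k * e z) l) =
      ht (fun z => (z - a) ^ k * g z) l + Real.pi * ((l - a) ^ k * χ l) := by
    intro k l
    have hc1 : ContDiff ℝ 1 (fun z : ℂ => (z - a) ^ k * χ z) :=
      ((contDiff_id.sub contDiff_const).pow k).mul hχc
    have hc2 : HasCompactSupport (fun z : ℂ => (z - a) ^ k * χ z) := by
      refine HasCompactSupport.intro hψc fun z hz => ?_
      show (z - a) ^ k * (q z * ψ z) = 0
      rw [image_eq_zero_of_notMem_tsupport hz, mul_zero, mul_zero]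
    have h1 := hP1 _ hc1 hc2 l
    have h2 : ht (db (fun z => (z - a) ^ k * χ z)) l =
        ht (fun z => (z - a) ^ k * g z) l + ht (fun z => (z - a) ^ k * e z) l := by
      unfold ht
      rw [← integral_add ((hHT' _ _ _ (Bg k)).2.2.1 l) ((hHT' _ _ _ (Be k)).2.2.1 l)]
      refine integral_congr_ae (Eventually.of_forall fun z => ?_)
      show db (fun z => (z - a) ^ k * χ z) z * (z - l)⁻¹ = _
      rw [hdb]
      ring
    rw [h2] at h1
    linear_combination -h1
  have hCC : 0 ≤ |C| * C₁ := by positivity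
  refine ⟨⟨_, Be0⟩, ⟨_, Bg0⟩, ?_, ?_, ?_⟩
  · intro k l
    have h2 := (hHT' _ _ _ (Bg k)).2.2.2.1 l
    have h3 := (Bχ k).bd l
    rw [← norm_neg, hkey k l]
    refine (norm_add_le _ _).trans ?_
    rw [norm_mul, Complex.norm_real, Real.norm_of_nonneg Real.pi_pos.le]
    have h4 := mul_le_mul_of_nonneg_left h3 Real.pi_pos.le
    have h5 : 0 ≤ |C| * C₁ * r ^ k := by positivity
    calc ‖ht (fun z => (z - a) ^ k * g z) l‖ + Real.pi * ‖(l - a) ^ k * χ l‖
        ≤ K₀ * (r ^ k * (|C| * C₂)) + Real.pi * (r ^ k * (|C| * C₁)) := add_le_add h2 h4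
      _ = (K₀ * (|C| * C₂) + Real.pi * (|C| * C₁)) * r ^ k := by ring
      _ ≤ _ := by nlinarith
  · intro l
    have h1 : 0 ≤ K₀ * (|C| * C₂) + Real.pi * (|C| * C₁) := by positivity
    exact (Bχ0.bd l).trans (by linarith)
  · intro l
    have h1 := hkey 0 l
    simpa only [pow_zero, one_mul] using h1

variable {E : Type} [NormedAddCommGroup E] [NormedSpace ℂ E] {K : Set ℂ}
  [CompactSpace K] {Φ : C(K, ℂ) →ₐ[ℂ] (E →L[ℂ] E)} {N : E →L[ℂ] E} {M : ℝ}
  {μ : Measure K} [IsFiniteMeasure μ] {w d : Lp ℂ 2 μ}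

omit [CompactSpace K] [IsFiniteMeasure μ] in
/-- multiplication by bounded functions in `L²` -/
lemma mvb (x : Lp ℂ 2 μ) {h : ℂ → ℂ} {B : ℝ} (hh : Measurable h) (hb : ∀ z, ‖h z‖ ≤ B) :
    ‖mv (Subtype.val : K → ℂ) d h‖ ≤ B * ‖d‖ ∧
      ⟪x, mv (Subtype.val : K → ℂ) d h⟫_ℂ = ∫ s, conj (x s) * (h s * d s) ∂μ := by
  have e := Pool.Agent.Y510.RO.MV.mv_ae (φ := (Subtype.val : K → ℂ)) val_meas d h B hh
    (fun s => hb s)
  constructor
  · refine Lp.norm_le_mul_norm_of_ae_le_mul ?_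
    filter_upwards [e] with s hs
    rw [hs, norm_mul]
    exact mul_le_mul_of_nonneg_right (hb _) (norm_nonneg _)
  · rw [MeasureTheory.L2.inner_def]
    refine integral_congr_ae ?_
    filter_upwards [e] with s hs
    rw [hs, RCLike.inner_apply, mul_comm]

/-- if there is no chain, then `Star` holds for the measure of `(u, v)` -/
theorem star_of (hF : FC Φ N M) {u : E} {v : E →L[ℂ] ℂ} [μ.Regular] (hm : Mo Φ u v μ w d)
    {T : E →L[ℂ] E} (hT : ∀ x, T x = N x + v x • u) {F : Set (E →L[ℂ] ℂ)} (hA : Adm T F)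
    (hv : ∀ c : C(K, ℂ), v.comp (Φ c) ∈ F) (hL : Lim Φ u F) {a : ℂ} {r : ℝ} (hr : 0 < r)
    (hno : ¬ HC T a r) (q : ℕ → ℂ → ℂ) (C : ℝ) (hq : ∀ n, ContDiff ℝ 1 (q n))
    (hqC : ∀ n, ∀ z ∈ ball a r, ‖q n z‖ ≤ C)
    (hq0 : Tendsto (fun n => ∫⁻ z in ball a r, ‖ff (Subtype.val : K → ℂ) d w z * db (q n) z‖ₑ)
      atTop (𝓝 0)) :
    Star (Subtype.val : K → ℂ) d a r q := by
  intro ψ hψ hψs
  obtain ⟨R, hR0, hR⟩ := funA a r hr ψ hψ hψs C
  have hR' := fun n => hR (q n) (hq n) (hqC n)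
  choose hMe hMg hb1 hb2 hb3 using hR'
  choose Me hMe using hMe
  choose Mg hMg using hMg
  set f := ff (Subtype.val : K → ℂ) d w with hf
  set e : ℕ → ℂ → ℂ := fun n z => ψ z * db (q n) z with he
  have Be : ∀ n k, Bd (fun z => (z - a) ^ k * e n z) a r (r ^ k * Me n) := fun n k => bdp hr (hMe n) k
  set h : ℕ → ℕ → C(K, ℂ) := fun n k => -cK K (ht (fun z => (z - a) ^ k * e n z)) with hh
  have hhb : ∀ n k, ‖h n k‖ ≤ R * r ^ k := by
    intro n k
    refine (ContinuousMap.norm_le _ (by positivity)).2 fun s => ?_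
    simp only [hh, ContinuousMap.neg_apply, norm_neg]
    rw [cK_apply (ht_cont (Be n k))]
    exact hb1 n k _
  have hΦb : ∀ n k, ‖Φ (h n k) u‖ ≤ M * R * ‖u‖ * r ^ k := by
    intro n k
    refine (hF.bd_apply (B := R * r ^ k) (by positivity)
      (fun s => ((h n k).norm_coe_le_norm s).trans (hhb n k)) u).trans (le_of_eq (by ring))
  -- the recursion
  have hrec : ∀ n k, T (Φ (h n k) u) - a • Φ (h n k) u - Φ (h n (k + 1)) u =
      (∫ z in ball a r, (z - a) ^ k * ψ z * (f z * db (q n) z)) • u := by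
    intro n k
    obtain ⟨i1, i2⟩ := hF.Y_step hm hT hr (Be n k)
    have e1 : ∀ k, Φ (h n k) u = -Y Φ (fun z => (z - a) ^ k * e n z) u := by
      intro k
      simp only [hh, Y, map_neg, neg_apply]
    have e2 : (fun z => (z - a) * ((z - a) ^ k * e n z)) = fun z => (z - a) ^ (k + 1) * e n z := by
      funext z; ring
    rw [e2] at i2
    have e3 : ∫ z in ball a r, (z - a) ^ k * ψ z * (f z * db (q n) z) =
        ∫ z, (z - a) ^ k * e n z * f z := by
      rw [setIntegral_eq_integral_of_forall_compl_eq_zero]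
      · congr 1
        funext z
        simp only [he]
        ring
      · intro z hz
        rw [image_eq_zero_of_notMem_tsupport fun hz' => hz (hψs hz')]
        ring
    rw [e1, e1, e3, map_neg, smul_neg]
    rw [eq_add_of_sub_eq i2]
    abel
  -- `ψ` is bounded
  have hcs : HasCompactSupport ψ :=
    (isCompact_closedBall a r).of_isClosed_subset (isClosed_tsupport ψ)
      (hψs.trans ball_subset_closedBall)
  obtain ⟨B, hB⟩ := hcs.exists_bound_of_continuous hψ.continuous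
  have hB0 : 0 ≤ B := (norm_nonneg _).trans (hB a)
  have hlim : ∀ k : ℕ, Tendsto (fun n => ∫ z in ball a r,
      (z - a) ^ k * ψ z * (f z * db (q n) z)) atTop (𝓝 0) := by
    intro k
    rw [tendsto_zero_iff_enorm_tendsto_zero]
    have hub : Tendsto (fun n => ENNReal.ofReal (r ^ k * B) *
        ∫⁻ z in ball a r, ‖f z * db (q n) z‖ₑ) atTop (𝓝 0) := by
      have := ENNReal.Tendsto.const_mul (a := ENNReal.ofReal (r ^ k * B)) hq0
        (Or.inr ENNReal.ofReal_ne_top)
      rwa [mul_zero] at this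
    refine tendsto_of_tendsto_of_tendsto_of_le_of_le tendsto_const_nhds hub
      (fun _ => zero_le) (fun n => ?_)
    refine (enorm_integral_le_lintegral_enorm _).trans ?_
    rw [← lintegral_const_mul' _ _ ENNReal.ofReal_ne_top]
    refine setLIntegral_mono' measurableSet_ball fun z hz => ?_
    rw [enorm_mul]
    refine mul_le_mul' ?_ le_rfl
    rw [← ofReal_norm_eq_enorm]
    refine ENNReal.ofReal_le_ofReal ?_
    rw [norm_mul, norm_pow]
    refine mul_le_mul (pow_le_pow_left₀ (norm_nonneg _) ?_ k) (hB z) (norm_nonneg _) (by positivity)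
    exact (mem_ball_iff_norm.1 hz).le
  -- the weak limits vanish
  have hw0 : ∀ g ∈ F, Tendsto (fun n => g (Φ (h n 0) u)) atTop (𝓝 0) := by
    intro g hg
    rw [tendsto_iff_ultrafilter]
    intro U hU
    obtain ⟨X, hX, hXl⟩ := chain_lim hA U hU a r (M * R * ‖u‖) 0 (fun _ => 0)
      (fun n k => Φ (h n k) u) (fun k => by simp)
      (fun k => hL U (fun n => h n k) _ _ (fun n => hhb n k) (fun n => hΦb n k)) (fun k => by
        have h3 : (fun n => T (0 + Φ (h n k) u) - a • (0 + Φ (h n k) u) -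
            (0 + Φ (h n (k + 1)) u)) =
            fun n => (∫ z in ball a r, (z - a) ^ k * ψ z * (f z * db (q n) z)) • u := by
          funext n
          rw [zero_add, zero_add, hrec]
        rw [h3]
        have := (hlim k).smul_const u
        rwa [zero_smul] at this)
    have h4 := hXl 0 g hg
    have h5 : X 0 = 0 := by
      by_contra h0
      exact hno ⟨X, hX, h0⟩
    rw [h5, map_zero] at h4
    simpa only [zero_add] using h4
  -- the pairings
  set H : ℕ → ℂ → ℂ := fun n l => -(ht (e n) l) with hH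
  have hHc : ∀ n, Continuous (H n) := fun n => (ht_cont (hMe n)).neg
  have hHb : ∀ n l, ‖H n l‖ ≤ R := by
    intro n l
    have := hb1 n 0 l
    simp only [pow_zero, one_mul, mul_one] at this
    simp only [hH, norm_neg]
    exact this
  have hpair : ∀ n (x : Lp ℂ 2 μ), (∫ z, q n z * db ψ z * ct (Subtype.val : K → ℂ) x d z) +
      Real.pi * ∫ s : K, conj (x s) * (q n s * ψ s * d s) ∂μ =
      ∫ s : K, conj (x s) * (H n s * d s) ∂μ := by
    intro n x
    have h1 : ∀ s : K, conj (x s) * (H n s * d s) =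
        conj (x s) * (ht (fun z => q n z * db ψ z) s * d s) +
          Real.pi * (conj (x s) * (q n s * ψ s * d s)) := by
      intro s
      have h2 : H n s = ht (fun z => q n z * db ψ z) s + Real.pi * (q n s * ψ s) := hb3 n s
      rw [h2]
      ring
    have hii : ∀ {G : ℂ → ℂ} {B' : ℝ}, Measurable G → (∀ z, ‖G z‖ ≤ B') →
        Integrable (fun s : K => conj (x s) * (G s * d s)) μ := by
      intro G B' hG hb
      have h1 : Integrable (fun s => ⟪x s, d s⟫_ℂ) μ := L2.integrable_inner x d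
      have h2 : Integrable (fun s : K => G s * ⟪x s, d s⟫_ℂ) μ :=
        h1.bdd_mul (hG.comp val_meas).aestronglyMeasurable (Eventually.of_forall fun s => hb s)
      refine h2.congr (Eventually.of_forall fun s => ?_)
      show G s * ⟪x s, d s⟫_ℂ = conj (x s) * (G s * d s)
      rw [RCLike.inner_apply]
      ring
    obtain ⟨R', hR'0, hR'⟩ := hHT r hr
    have i1 := hii (ht_cont (hMg n)).measurable (hR' _ _ _ (hMg n)).2.2.2.1
    have i2 := hii (G := fun z => q n z * ψ z) ((hq n).continuous.mul hψ.continuous).measurable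
      (hb2 n)
    rw [integral_congr_ae (Eventually.of_forall h1), integral_add i1 (i2.const_mul _),
      integral_const_mul, ((hCTG K μ Subtype.val val_meas x d).2.2 a r _ _ (hMg n)).2]
  intro x
  simp_rw [hpair]
  -- first for continuous functions
  have hcont : ∀ c : C(K, ℂ), Tendsto (fun n => ∫ s : K, c s * (H n s * d s) ∂μ) atTop (𝓝 0) := by
    intro c
    have h1 := hw0 _ (hv c)
    refine h1.congr fun n => ?_
    show v (Φ c (Φ (h n 0) u)) = _
    have h2 : Φ c (Φ (h n 0) u) = Φ (c * h n 0) u := by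
      rw [map_mul]; rfl
    rw [h2, hm.eq]
    refine integral_congr_ae (Eventually.of_forall fun s => ?_)
    have h3 : h n 0 s = H n s := by
      simp only [hh, hH, ContinuousMap.neg_apply]
      rw [cK_apply (ht_cont (Be n 0))]
      simp only [pow_zero, one_mul]
    simp only [ContinuousMap.mul_apply, h3]
    ring
  -- the general case
  rw [Metric.tendsto_atTop]
  intro ε hε
  have hdense : DenseRange (ContinuousMap.toLp 2 μ ℂ : C(K, ℂ) →L[ℂ] Lp ℂ 2 μ) :=
    ContinuousMap.toLp_denseRange ℂ μ ℂ (by norm_num)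
  set η : ℝ := ε / (2 * (R * ‖d‖ + 1)) with hη
  have hη0 : 0 < η := by positivity
  obtain ⟨c, hc⟩ := hdense.exists_dist_lt x hη0
  set xc : Lp ℂ 2 μ := ContinuousMap.toLp 2 μ ℂ c with hxc
  have hxcae : (xc : K → ℂ) =ᵐ[μ] c := ContinuousMap.coeFn_toLp μ c
  obtain ⟨n₀, hn₀⟩ := (Metric.tendsto_atTop.1 (hcont (star c))) (ε / 2) (by positivity)
  refine ⟨n₀, fun n hn => ?_⟩
  have h1 := hn₀ n hn
  rw [dist_zero_right] at h1 ⊢
  have h2 : ∫ s : K, (star c) s * (H n s * d s) ∂μ =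
      ⟪xc, mv (Subtype.val : K → ℂ) d (H n)⟫_ℂ := by
    rw [(mvb xc (hHc n).measurable (hHb n)).2]
    refine integral_congr_ae ?_
    filter_upwards [hxcae] with s hs
    rw [hs]
    rfl
  rw [h2] at h1
  rw [← (mvb x (hHc n).measurable (hHb n)).2]
  have h3 : ⟪x, mv (Subtype.val : K → ℂ) d (H n)⟫_ℂ =
      ⟪xc, mv (Subtype.val : K → ℂ) d (H n)⟫_ℂ +
        ⟪x - xc, mv (Subtype.val : K → ℂ) d (H n)⟫_ℂ := by
    rw [← inner_add_left, add_sub_cancel]
  rw [h3]
  have h4 : ‖⟪x - xc, mv (Subtype.val : K → ℂ) d (H n)⟫_ℂ‖ ≤ η * (R * ‖d‖) := by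
    refine (norm_inner_le_norm _ _).trans ?_
    rw [dist_eq_norm] at hc
    exact mul_le_mul hc.le (mvb x (hHc n).measurable (hHb n)).1 (norm_nonneg _) hη0.le
  have h5 : η * (R * ‖d‖) < ε / 2 := by
    have h6 : 0 ≤ R * ‖d‖ := by positivity
    calc η * (R * ‖d‖) < η * (R * ‖d‖ + 1) := by gcongr; linarith
      _ = ε / 2 := by rw [hη]; field_simp
  calc _ ≤ ‖⟪xc, mv (Subtype.val : K → ℂ) d (H n)⟫_ℂ‖ +
        ‖⟪x - xc, mv (Subtype.val : K → ℂ) d (H n)⟫_ℂ‖ := norm_add_le _ _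
    _ < ε := by linarith

end Pool.Agent.R277.SP
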