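import Pool.Agent.R277.SP.CasA
import Pool.Agent.Y271.RO.Final

/-!
# Rank one perturbations of scalar type operators on Banach spaces: the contradiction in case A

The proof of `caseA` is that of `Pool.Agent.Y271.RO.caseA` (helper271), the hypothesis on the vectors
being replaced by the hypothesis `hS`.
-/

set_option autoImplicit false

namespace Pool.Agent.R277.SP

open MeasureTheory Set Metric Filter Topology
open scoped InnerProductSpace ENNReal NNReal ComplexConjugate ContDiff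
open Pool.Agent.Y283.NK (ct IsMul HasHyp)
open Pool.Agent.Y271.RO (db ht Bd ff Star Tun Cut hTST hWKS hWEYL hMID hPTW hCON)

/-- the contradiction in case A -/
theorem caseA
    {S : Type} [MeasurableSpace S] {μ : Measure S} [SigmaFinite μ] {φ : S → ℂ}
    (hφ : Measurable φ) (hφb : ∃ M : ℝ, ∀ s, ‖φ s‖ ≤ M) (u v : Lp ℂ 2 μ) (hu : u ≠ 0) (a : ℂ) (r : ℝ)
    (hr : 0 < r) (hne : ∀ᵐ z ∂(volume.restrict (ball a r)), ff φ u v z ≠ 0)
    (hT : Tun (ff φ u v) a r)
    (hS : ∀ (q : ℕ → ℂ → ℂ) (C : ℝ), (∀ n, ContDiff ℝ 1 (q n)) → (∀ n, ∀ z ∈ ball a r, ‖q n z‖ ≤ C) →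
      Tendsto (fun n => ∫⁻ z in ball a r, ‖ff φ u v z * db (q n) z‖ₑ) atTop (𝓝 0) →
      Star φ u a r q) : False := by
  obtain ⟨b, q, C, hb, hq, hqC, hq0, hql⟩ := hT
  have hC0 : 0 ≤ C := (norm_nonneg _).trans (hqC 0 a (mem_ball_self hr))
  have hstar := hS q C hq hqC hq0
  obtain ⟨ρ, hρ, hρr, hlim⟩ := hTST S μ φ hφ hφb u a r q hr hu hstar
  have hsub : ball a ρ ⊆ ball a r := ball_subset_ball hρr
  obtain ⟨s, Q, hs, hQm, hQC, hQl⟩ := hWKS q a ρ C hC0 (fun n => (hq n).continuous.measurable)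
    (fun n z hz => hqC n z (hsub hz))
  -- the limit is analytic
  have hzero : ∀ (F : ℂ → ℂ) (ψ : ℂ → ℂ), tsupport ψ ⊆ ball a ρ →
      ∫ z, F z * db ψ z = ∫ z in ball a ρ, F z * db ψ z := by
    intro F ψ hψ
    rw [← integral_indicator measurableSet_ball]
    congr 1
    funext z
    by_cases hz : z ∈ ball a ρ
    · rw [indicator_of_mem hz]
    · rw [indicator_of_notMem hz, hPOM.2.2.2.2.2.2 ψ z (fun h => hz (hψ h)), mul_zero]
  have hdbi : ∀ ψ : ℂ → ℂ, ContDiff ℝ ∞ ψ → IntegrableOn (db ψ) (ball a ρ) := by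
    intro ψ hψ
    have hcont : Continuous (db ψ) := hPOM.2.2.2.2.1 ψ (hψ.of_le (by exact_mod_cast le_top))
    exact (hcont.continuousOn.integrableOn_compact (isCompact_closedBall a ρ)).mono_set
      ball_subset_closedBall
  obtain ⟨G, hGd, hGC, hGQ⟩ := hWEYL Q a ρ C hρ hQm hQC (by
    intro ψ hψ hsupp
    have hsupp' : tsupport ψ ⊆ ball a ρ := hsupp.trans Set.sdiff_subset
    have h1 := (hlim ψ hψ hsupp).comp hs.tendsto_atTop
    have h2 := hQl (db ψ) (hdbi ψ hψ)
    have h3 : (fun n => ∫ z in ball a ρ, q (s n) z * db ψ z) =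
        (fun n => ∫ z, q n z * db ψ z) ∘ s := by
      funext n
      exact (hzero _ ψ hsupp').symm
    rw [h3] at h2
    rw [hzero _ ψ hsupp']
    exact tendsto_nhds_unique h2 h1)
  have hGl : ∀ h : ℂ → ℂ, IntegrableOn h (ball a ρ) →
      Tendsto (fun n => ∫ z in ball a ρ, q (s n) z * h z) atTop
        (𝓝 (∫ z in ball a ρ, G z * h z)) := by
    intro h hh
    have h1 := hQl h hh
    have h2 : ∫ z in ball a ρ, Q z * h z = ∫ z in ball a ρ, G z * h z := by
      refine integral_congr_ae ?_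
      filter_upwards [hGQ] with z hz
      rw [hz]
    rwa [h2] at h1
  have hstar' : Star φ u a ρ (fun n => q (s n)) := by
    intro ψ hψ hsupp x
    exact (hstar ψ hψ (hsupp.trans hsub) x).comp hs.tendsto_atTop
  have hq' : ∀ n, ContDiff ℝ 1 (q (s n)) := fun n => hq (s n)
  have hqC' : ∀ n, ∀ z ∈ ball a ρ, ‖q (s n) z‖ ≤ C := fun n z hz => hqC (s n) z (hsub hz)
  have hq0' : Tendsto (fun n => ∫⁻ z in ball a ρ, ‖ff φ u v z * db (q (s n)) z‖ₑ) atTop (𝓝 0) := by
    refine tendsto_of_tendsto_of_tendsto_of_le_of_le tendsto_const_nhds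
      (hq0.comp hs.tendsto_atTop) (fun _ => zero_le) (fun n => ?_)
    exact lintegral_mono_set hsub
  -- a bump function
  let B : ContDiffBump a := ⟨ρ / 2, 3 * ρ / 4, by positivity, by linarith⟩
  set ψ : ℂ → ℂ := fun z => ((B z : ℝ) : ℂ) with hψdef
  have hψ : ContDiff ℝ ∞ ψ := Complex.ofRealCLM.contDiff.comp B.contDiff
  have hψs : tsupport ψ ⊆ ball a ρ := by
    have h1 : tsupport ψ ⊆ closedBall a (3 * ρ / 4) := by
      refine closure_minimal ?_ isClosed_closedBall
      intro z hz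
      have hz' : B z ≠ 0 := by
        intro h0
        apply hz
        show ((B z : ℝ) : ℂ) = 0
        rw [h0]
        simp
      have h2 : z ∈ Function.support B := hz'
      rw [B.support_eq] at h2
      exact ball_subset_closedBall h2
    exact h1.trans (closedBall_subset_ball (by linarith))
  have hψ1 : ∀ z ∈ ball a (ρ / 2), ψ z = 1 := by
    intro z hz
    have h1 : B z = 1 := B.one_of_mem_closedBall (ball_subset_closedBall hz)
    show ((B z : ℝ) : ℂ) = 1
    rw [h1]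
    simp
  obtain ⟨s', hs', hae⟩ := hPTW S μ φ hφ u v a ρ C (fun n => q (s n)) G hρ hq' hqC' hGd hGC
    hGl hq0' ψ hψ hψs
    (hMID S μ φ hφ u a ρ C (fun n => q (s n)) G hρ hq' hqC' hGd hGC hGl hstar' ψ hψ hψs)
  refine hCON G a b (ρ / 2) (by positivity) (by linarith) (hGd.mono (ball_subset_ball (by linarith))) ?_
  have hsub2 : ball a (ρ / 2) ⊆ ball a r := ball_subset_ball (by linarith)
  have hne' : ∀ᵐ z ∂(volume.restrict (ball a (ρ / 2))), ff φ u v z ≠ 0 :=
    ae_restrict_of_ae_restrict_of_subset hsub2 hne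
  filter_upwards [hne', ae_restrict_of_ae hae, ae_restrict_mem measurableSet_ball] with z h1 h2 h3
  have h4 : Tendsto (fun n => q (s (s' n)) z * ff φ u v z) atTop (𝓝 (G z * ff φ u v z)) := by
    have := h2
    simp only [hψ1 z h3, one_mul] at this
    exact this
  have h5 : Tendsto (fun n => q (s (s' n)) z) atTop (𝓝 (G z)) := by
    have h6 := h4.mul_const (ff φ u v z)⁻¹
    simp only [mul_assoc, mul_inv_cancel₀ h1, mul_one] at h6
    exact h6
  have h6 : Tendsto (fun n => ‖q (s (s' n)) z‖ ^ 2) atTop (𝓝 (‖G z‖ ^ 2)) := (h5.norm).pow 2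
  have h7 := (hql z (hsub2 h3)).comp (hs.comp hs').tendsto_atTop
  exact tendsto_nhds_unique h6 h7


end Pool.Agent.R277.SP
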