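import Pool.Agent.Y948.RO.HT
import Pool.Agent.Y108.RO.CTG
import Pool.Agent.Y839.RO.POM
import Pool.Agent.H731R2.Riesz

/-!
# Rank one perturbations of scalar type operators on Banach spaces: definitions, Cauchy transforms

`Φ` is a bounded functional calculus for the continuous functions on a compact set `K ⊂ ℂ`, with
values in the operators on a Banach space `E`, `N = Φ(z)`.
-/

set_option autoImplicit false

namespace Pool.Agent.R277.SP

open MeasureTheory Set Metric Filter Topology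
open scoped ENNReal NNReal ComplexConjugate ContDiff
open Pool.Agent.Y283.NK (ct IsMul HasHyp)
open Pool.Agent.Y271.RO (db ht Bd ff S_HT S_CTG S_POM)

theorem hHT : S_HT := Pool.Agent.Y948.RO.main
theorem hCTG : S_CTG := Pool.Agent.Y108.RO.main
theorem hPOM : S_POM := Pool.Agent.Y839.RO.main

/-! ### Cauchy transforms of bounded functions are continuous -/

/-- small discs -/
theorem ht_small : ∃ K : ℝ, 0 ≤ K ∧ ∀ (c : ℂ) (δ M : ℝ) (g : ℂ → ℂ), 0 < δ → Bd g c δ M →
    ∀ l, ‖ht g l‖ ≤ δ * (K * M) := by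
  obtain ⟨K, hK0, hK⟩ := hHT 1 one_pos
  refine ⟨K, hK0, fun c δ M g hδ hg l => ?_⟩
  have hb : Bd (fun z => g (δ • z)) (δ⁻¹ • c) 1 M := by
    refine ⟨hg.meas.comp (measurable_const_smul δ), hg.nonneg, fun z => hg.bd _, fun z hz => ?_⟩
    apply hg.supp
    intro h
    apply hz
    rw [mem_ball, dist_eq_norm] at h ⊢
    have e : z - δ⁻¹ • c = δ⁻¹ • (δ • z - c) := by
      rw [smul_sub, smul_smul, inv_mul_cancel₀ hδ.ne', one_smul]
    rw [e, norm_smul, norm_inv, Real.norm_of_nonneg hδ.le, inv_mul_lt_iff₀ hδ, mul_one]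
    exact h
  obtain ⟨-, -, -, h4, -⟩ := hK _ _ _ hb
  have h5 := h4 (δ⁻¹ • l)
  have e1 : ht (fun z => g (δ • z)) (δ⁻¹ • l) = (δ⁻¹ : ℝ) • ht g l := by
    unfold ht
    have e2 : ∀ z : ℂ, g (δ • z) * (z - δ⁻¹ • l)⁻¹ =
        (fun y => (δ : ℝ) • (g y * (y - l)⁻¹)) (δ • z) := by
      intro z
      have e3 : δ • z - l = (δ : ℂ) * (z - δ⁻¹ • l) := by
        rw [Complex.real_smul, Complex.real_smul, mul_sub, ← mul_assoc, ← Complex.ofReal_mul,
          mul_inv_cancel₀ hδ.ne', Complex.ofReal_one, one_mul]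
      have h0 : (δ : ℂ) ≠ 0 := by exact_mod_cast hδ.ne'
      show g (δ • z) * (z - δ⁻¹ • l)⁻¹ = δ • (g (δ • z) * (δ • z - l)⁻¹)
      rw [e3, mul_inv]
      generalize (z - δ⁻¹ • l)⁻¹ = w
      generalize g (δ • z) = y
      rw [Complex.real_smul]
      field_simp
    simp_rw [e2]
    rw [Measure.integral_comp_smul volume (fun y => (δ : ℝ) • (g y * (y - l)⁻¹)) δ,
      Complex.finrank_real_complex, integral_smul, smul_smul]
    congr 1
    rw [abs_of_nonneg (by positivity)]
    field_simp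
  rw [e1, norm_smul, norm_inv, Real.norm_of_nonneg hδ.le, inv_mul_le_iff₀ hδ] at h5
  exact h5

theorem ht_add {g g' : ℂ → ℂ} {l : ℂ} (h : Integrable (fun z => g z * (z - l)⁻¹))
    (h' : Integrable (fun z => g' z * (z - l)⁻¹)) :
    ht (fun z => g z + g' z) l = ht g l + ht g' l := by
  unfold ht
  rw [← integral_add h h']
  congr 1
  funext z
  ring

theorem ht_cont {g : ℂ → ℂ} {c : ℂ} {r M : ℝ} (hg : Bd g c r M) : Continuous (ht g) := by
  classical
  by_cases hr : 0 < r
  swap
  · have h0 : g = fun _ => 0 := by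
      funext z
      apply hg.supp
      rw [ball_eq_empty.2 (not_lt.1 hr)]
      exact notMem_empty z
    have : ht g = fun _ => 0 := by
      funext l
      unfold ht
      rw [h0]
      simp
    rw [this]
    exact continuous_const
  obtain ⟨K, hK0, hK⟩ := ht_small
  rw [continuous_iff_continuousAt]
  intro l₀
  rw [Metric.continuousAt_iff]
  intro ε hε
  have hM := hg.nonneg
  set δ : ℝ := ε / (3 * (K * M + 1)) with hδ
  have hδ0 : 0 < δ := by positivity
  have hδ1 : δ * (K * M) ≤ ε / 3 := by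
    rw [hδ]
    have : 0 ≤ K * M := by positivity
    rw [div_mul_eq_mul_div, div_le_div_iff₀ (by positivity) (by norm_num)]
    nlinarith
  -- the two parts
  set g₁ : ℂ → ℂ := (ball l₀ δ).indicator g with hg₁
  set g₂ : ℂ → ℂ := fun z => (z - l₀)⁻¹ * (ball l₀ δ)ᶜ.indicator g z with hg₂
  have b₁ : Bd g₁ l₀ δ M := by
    refine ⟨hg.meas.indicator measurableSet_ball, hM, fun z => ?_, fun z hz => ?_⟩
    · exact (norm_indicator_le_norm_self _ _).trans (hg.bd z)
    · exact indicator_of_notMem hz _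
  have b₁' : Bd g₁ c r M := by
    refine ⟨hg.meas.indicator measurableSet_ball, hM, fun z => ?_, fun z hz => ?_⟩
    · exact (norm_indicator_le_norm_self _ _).trans (hg.bd z)
    · rw [hg₁, indicator_apply]
      split_ifs
      · exact hg.supp z hz
      · rfl
  have b₂ : Bd g₂ c r (δ⁻¹ * M) := by
    refine ⟨?_, by positivity, fun z => ?_, fun z hz => ?_⟩
    · exact ((measurable_id.sub_const l₀).inv).mul (hg.meas.indicator measurableSet_ball.compl)
    · simp only [hg₂]
      by_cases hz : z ∈ ball l₀ δ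
      · rw [indicator_of_notMem (by simpa using hz), mul_zero, norm_zero]
        positivity
      · rw [indicator_of_mem (by simpa using hz), norm_mul, norm_inv]
        rw [mem_ball, dist_eq_norm, not_lt] at hz
        exact mul_le_mul (inv_anti₀ hδ0 hz) (hg.bd z) (norm_nonneg _) (by positivity)
    · simp only [hg₂]
      rw [indicator_apply]
      split_ifs
      · rw [hg.supp z hz, mul_zero]
      · rw [mul_zero]
  obtain ⟨R, hR0, hR⟩ := hHT r hr
  obtain ⟨-, -, i₁, -, -⟩ := hR _ _ _ b₁'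
  obtain ⟨-, -, i₂, j₂, k₂⟩ := hR _ _ _ b₂
  have hsplit : ∀ l, ht g l = ht g₁ l + ((l - l₀) * ht g₂ l + ∫ z, g₂ z) := by
    intro l
    rw [← k₂ l₀ l]
    have b₃ : Bd (fun z => (z - l₀) * g₂ z) c r M := by
      have e : (fun z => (z - l₀) * g₂ z) = (ball l₀ δ)ᶜ.indicator g := by
        funext z
        simp only [hg₂]
        by_cases hz : z = l₀
        · have : z ∉ (ball l₀ δ)ᶜ := by
            rw [hz]; simpa using hδ0
          rw [indicator_of_notMem this]; simp
        · have : z - l₀ ≠ 0 := sub_ne_zero.2 hz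
          field_simp
      rw [e]
      refine ⟨hg.meas.indicator measurableSet_ball.compl, hM, fun z => ?_, fun z hz => ?_⟩
      · exact (norm_indicator_le_norm_self _ _).trans (hg.bd z)
      · rw [indicator_apply]
        split_ifs
        · exact hg.supp z hz
        · rfl
    obtain ⟨-, -, i₃, -, -⟩ := hR _ _ _ b₃
    rw [← ht_add (i₁ l) (i₃ l)]
    congr 1
    funext z
    simp only [hg₁, hg₂]
    by_cases hz : z ∈ ball l₀ δ
    · rw [indicator_of_mem hz, indicator_of_notMem (by simpa using hz)]; simp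
    · rw [indicator_of_notMem hz, indicator_of_mem (by simpa using hz)]
      have : z - l₀ ≠ 0 := by
        intro h0
        apply hz
        rw [sub_eq_zero.1 h0]
        exact mem_ball_self hδ0
      rw [zero_add]
      field_simp
  have hB : 0 ≤ R * (δ⁻¹ * M) := mul_nonneg hR0 b₂.nonneg
  refine ⟨ε / (3 * (R * (δ⁻¹ * M) + 1)), by positivity, fun {l} hl => ?_⟩
  rw [dist_eq_norm] at hl ⊢
  rw [hsplit l, hsplit l₀, sub_self, zero_mul, zero_add]
  have e : ht g₁ l + ((l - l₀) * ht g₂ l + ∫ z, g₂ z) - (ht g₁ l₀ + ∫ z, g₂ z) =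
      ht g₁ l - ht g₁ l₀ + (l - l₀) * ht g₂ l := by ring
  rw [e]
  have h1 := hK _ _ _ _ hδ0 b₁ l
  have h2 := hK _ _ _ _ hδ0 b₁ l₀
  have h3 : ‖(l - l₀) * ht g₂ l‖ < ε / 3 := by
    rw [norm_mul]
    calc ‖l - l₀‖ * ‖ht g₂ l‖ ≤ ‖l - l₀‖ * (R * (δ⁻¹ * M)) := by
          gcongr
          exact j₂ l
      _ ≤ ‖l - l₀‖ * (R * (δ⁻¹ * M) + 1) := by gcongr; linarith
      _ < ε / (3 * (R * (δ⁻¹ * M) + 1)) * (R * (δ⁻¹ * M) + 1) := by gcongr
      _ = ε / 3 := by field_simp
  calc ‖ht g₁ l - ht g₁ l₀ + (l - l₀) * ht g₂ l‖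
      ≤ ‖ht g₁ l‖ + ‖ht g₁ l₀‖ + ‖(l - l₀) * ht g₂ l‖ :=
        (norm_add_le _ _).trans (add_le_add (norm_sub_le _ _) le_rfl)
    _ < ε := by linarith

end Pool.Agent.R277.SP
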