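import Pool.Agent.R277.SP.Pt

/-!
# Rank one perturbations of scalar type operators on Banach spaces: the theorem
-/

set_option autoImplicit false

namespace Pool.Agent.R277.SP

open MeasureTheory Set Metric Filter Topology
open scoped ENNReal NNReal ComplexConjugate ContDiff InnerProductSpace
open Pool.Agent.Y283.NK (HasHyp)

/-- small local spectra at the points of the spectrum -/
def LocV {E : Type} [NormedAddCommGroup E] [NormedSpace ℂ E] (T : E →L[ℂ] E) : Prop :=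
  ∀ c ∈ spectrum ℂ T, ∀ ε : ℝ, 0 < ε → ∃ (x : E) (C : ℝ), x ≠ 0 ∧
    ∀ n : ℕ, ‖((T - c • (1 : E →L[ℂ] E)) ^ n) x‖ ≤ C * ε ^ n

section

variable {E : Type} [NormedAddCommGroup E] [NormedSpace ℂ E] {K : Set ℂ}
  [CompactSpace K] {Φ : C(K, ℂ) →ₐ[ℂ] (E →L[ℂ] E)} {N : E →L[ℂ] E} {M : ℝ}

omit [CompactSpace K] in
lemma pow_of_rec {T : E →L[ℂ] E} {c : ℂ} {X : ℕ → E} (h : ∀ k, T (X k) - c • X k = X (k + 1)) (n : ℕ) :
    ((T - c • (1 : E →L[ℂ] E)) ^ n) (X 0) = X n := by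
  induction n with
  | zero => rfl
  | succ n ih =>
    rw [pow_succ']
    show (T - c • (1 : E →L[ℂ] E)) (((T - c • (1 : E →L[ℂ] E)) ^ n) (X 0)) = X (n + 1)
    rw [ih, ← h n]
    rfl

lemma sur_NT {u : E} {v : E →L[ℂ] ℂ} {T N : E →L[ℂ] E} (hT : ∀ x, T x = N x + v x • u) {a : ℂ}
    (h : ∀ x, ∃ (W : E) (c : ℂ), x = T W - a • W + c • u) :
    ∀ x, ∃ (W : E) (c : ℂ), x = N W - a • W + c • u := by
  intro x
  obtain ⟨W, c, hx⟩ := h x
  refine ⟨W, v W + c, ?_⟩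
  rw [hx, hT, add_smul]
  abel

lemma rank_T {u : E} {v : E →L[ℂ] ℂ} {T N : E →L[ℂ] E} (hT : ∀ x, T x = N x + v x • u) :
    ∃ R : E →L[ℂ] E, T = N + R ∧ IsCompactOperator R := by
  refine ⟨v.smulRight u, ?_, ?_⟩
  · ext x
    rw [hT]
    rfl
  · exact compact_of_rank u fun x => ⟨v x, rfl⟩

theorem locvec [CompleteSpace E] (hF : FC Φ N M) {u : E} {v : E →L[ℂ] ℂ} {T : E →L[ℂ] E}
    (hT : ∀ x, T x = N x + v x • u) {F : Set (E →L[ℂ] ℂ)} (hA : Adm T F)
    (hv : ∀ c : C(K, ℂ), v.comp (Φ c) ∈ F) (hL : Lim Φ u F) : LocV T := by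
  intro c hc ε hε
  by_cases hch : HC T c ε
  · obtain ⟨X, ⟨X1, C, X2⟩, X3⟩ := hch
    refine ⟨X 0, C, X3, fun n => ?_⟩
    rw [pow_of_rec X1]
    exact X2 n
  · obtain ⟨⟨A, G, h1, h2, h3⟩, -⟩ := hF.pt c u (sur_NT hT (alt hF hT hA hv hL c hε hch))
    obtain ⟨R, hR1, hR2⟩ := rank_T hT
    have h4 : T = A + (G + R) := by
      rw [hR1, h1]
      abel
    have hc' : c ∈ spectrum ℂ (A + (G + R)) := by rwa [← h4]
    obtain ⟨x, hx0, hx⟩ := eigen (h2.add hR2) h3 hc'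
    rw [← h4] at hx
    refine ⟨x, ‖x‖, hx0, fun n => ?_⟩
    have h5 : (T - c • (1 : E →L[ℂ] E)) x = 0 := by
      show T x - c • x = 0
      rw [hx, sub_self]
    cases n with
    | zero => simp
    | succ n =>
      have h6 : ((T - c • (1 : E →L[ℂ] E)) ^ (n + 1)) x = 0 := by
        rw [pow_succ]
        show ((T - c • (1 : E →L[ℂ] E)) ^ n) ((T - c • (1 : E →L[ℂ] E)) x) = 0
        rw [h5, map_zero]
      rw [h6, norm_zero]
      positivity

/-- the case that the spectrum is one point -/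
theorem one_point [CompleteSpace E] (hF : FC Φ N M) {u : E} {v : E →L[ℂ] ℂ} {T : E →L[ℂ] E}
    (hT : ∀ x, T x = N x + v x • u) {c : ℂ} (hc : ∀ z ∈ spectrum ℂ T, z = c) :
    IsCompactOperator (T - c • (1 : E →L[ℂ] E)) := by
  classical
  obtain ⟨R, hR1, hR2⟩ := rank_T hT
  let I : Ideal C(K, ℂ) :=
    { carrier := {h | IsCompactOperator (Φ h)}
      add_mem' := by
        intro g h hg hh
        show IsCompactOperator (Φ (g + h))
        rw [map_add]
        exact IsCompactOperator.add hg hh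
      zero_mem' := by
        show IsCompactOperator (Φ 0)
        rw [map_zero]
        exact isCompactOperator_zero
      smul_mem' := by
        intro g h hh
        show IsCompactOperator (Φ (g * h))
        rw [map_mul]
        exact IsCompactOperator.clm_comp hh (Φ g) }
  have hIc : IsClosed (I : Set C(K, ℂ)) := by
    have h1 : Continuous Φ := by
      have : ∀ h, ‖Φ.toLinearMap h‖ ≤ M * ‖h‖ := hF.bd
      exact (Φ.toLinearMap.mkContinuous M this).continuous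
    have h2 : IsClosed {A : E →L[ℂ] E | IsCompactOperator A} := isClosed_setOfPred_isCompactOperator
    exact h2.preimage h1
  have hpt : ∀ s : K, (s : ℂ) ≠ c → s ∈ ContinuousMap.setOfIdeal I := by
    intro s hs
    have hns : (s : ℂ) ∉ spectrum ℂ T := fun h => hs (hc _ h)
    have hu : IsUnit (algebraMap ℂ (E →L[ℂ] E) s - T) := by
      rw [spectrum.mem_iff, not_not] at hns
      exact hns
    have hsur : ∀ x, ∃ (W : E) (c : ℂ), x = T W - (s : ℂ) • W + c • u := by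
      intro x
      refine ⟨-(Ring.inverse (algebraMap ℂ (E →L[ℂ] E) s - T) x), 0, ?_⟩
      have h1 := congrArg (fun A : E →L[ℂ] E => A x) (Ring.mul_inverse_cancel _ hu)
      have h2 : (s : ℂ) • (Ring.inverse (algebraMap ℂ (E →L[ℂ] E) s - T) x) -
          T (Ring.inverse (algebraMap ℂ (E →L[ℂ] E) s - T) x) = x := by
        rw [Algebra.algebraMap_eq_smul_one] at h1 ⊢
        exact h1
      rw [zero_smul, add_zero, map_neg, smul_neg]
      conv_lhs => rw [← h2]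
      abel
    obtain ⟨-, h, h1, h2⟩ := hF.pt (s : ℂ) u (sur_NT hT hsur)
    rw [ContinuousMap.mem_setOfIdeal]
    exact ⟨h, h2, h1 s.2⟩
  have hmem : zz K - c • (1 : C(K, ℂ)) ∈ I := by
    rw [← ContinuousMap.idealOfSet_ofIdeal_isClosed hIc, ContinuousMap.mem_idealOfSet]
    intro s hs
    by_cases h : (s : ℂ) = c
    · show (s : ℂ) - c * 1 = 0
      rw [h, mul_one, sub_self]
    · exact absurd (hpt s h) hs
  have h1 : IsCompactOperator (Φ (zz K - c • (1 : C(K, ℂ)))) := hmem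
  rw [map_sub, map_smul, map_one, hF.id] at h1
  have h2 : T - c • (1 : E →L[ℂ] E) = (N - c • (1 : E →L[ℂ] E)) + R := by
    rw [hR1]
    abel
  rw [h2]
  exact h1.add hR2

end

/-! ### The dual -/

section dual

variable {X : Type} [NormedAddCommGroup X] [NormedSpace ℂ X]

/-- the adjoint -/
noncomputable def ad (A : X →L[ℂ] X) : (X →L[ℂ] ℂ) →L[ℂ] (X →L[ℂ] ℂ) :=
  (ContinuousLinearMap.compL ℂ X X ℂ).flip A

lemma ad_apply (A : X →L[ℂ] X) (f : X →L[ℂ] ℂ) : ad A f = f.comp A := rfl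

lemma ad_apply2 (A : X →L[ℂ] X) (f : X →L[ℂ] ℂ) (x : X) : ad A f x = f (A x) := rfl

lemma ad_norm (A : X →L[ℂ] X) : ‖ad A‖ ≤ ‖A‖ := by
  refine ContinuousLinearMap.opNorm_le_bound _ (norm_nonneg _) fun f => ?_
  rw [ad_apply, mul_comm]
  exact ContinuousLinearMap.opNorm_comp_le _ _

/-- evaluation -/
noncomputable def ev (x : X) : (X →L[ℂ] ℂ) →L[ℂ] ℂ := ContinuousLinearMap.apply ℂ ℂ x

lemma ev_apply (x : X) (f : X →L[ℂ] ℂ) : ev x f = f x := rfl

variable {K : Set ℂ} [CompactSpace K]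

/-- the adjoint functional calculus -/
noncomputable def adΦ (Φ : C(K, ℂ) →ₐ[ℂ] (X →L[ℂ] X)) :
    C(K, ℂ) →ₐ[ℂ] ((X →L[ℂ] ℂ) →L[ℂ] (X →L[ℂ] ℂ)) :=
  AlgHom.ofLinearMap
    { toFun := fun h => ad (Φ h)
      map_add' := fun g h => by
        ext f x
        simp only [map_add, add_apply, ad_apply2]
      map_smul' := fun c h => by
        ext f x
        simp only [map_smul, smul_apply, ad_apply2, RingHom.id_apply] }
    (by
      ext f x
      show f (Φ 1 x) = f x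
      rw [map_one]
      rfl)
    (fun g h => by
      ext f x
      show f (Φ (g * h) x) = f (Φ h (Φ g x))
      rw [mul_comm, map_mul]
      rfl)

lemma adΦ_apply (Φ : C(K, ℂ) →ₐ[ℂ] (X →L[ℂ] X)) (h : C(K, ℂ)) : adΦ Φ h = ad (Φ h) := rfl

lemma FC.dual {Φ : C(K, ℂ) →ₐ[ℂ] (X →L[ℂ] X)} {N : X →L[ℂ] X} {M : ℝ} (hF : FC Φ N M) :
    FC (adΦ Φ) (ad N) M := by
  refine ⟨hF.nonneg, fun h => (ad_norm _).trans (hF.bd h), ?_⟩
  rw [adΦ_apply, hF.id]

lemma adm_dual (T : X →L[ℂ] X) : Adm (ad T) (range (ev : X → (X →L[ℂ] ℂ) →L[ℂ] ℂ)) := by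
  refine ⟨fun f hf => ?_, ?_⟩
  · ext x
    exact hf _ ⟨x, rfl⟩
  · rintro _ ⟨x, rfl⟩
    exact ⟨T x, rfl⟩

lemma weak_lim (U : Ultrafilter ℕ) (y : ℕ → (X →L[ℂ] ℂ)) (C : ℝ) (hy : ∀ n, ‖y n‖ ≤ C) :
    ∃ e : X →L[ℂ] ℂ, ‖e‖ ≤ C ∧ ∀ x, Tendsto (fun n => y n x) U (𝓝 (e x)) := by
  have hcomp := WeakDual.isCompact_closedBall (𝕜 := ℂ) (0 : StrongDual ℂ X) C
  have hle : ((U.map (fun n => StrongDual.toWeakDual (y n)) : Ultrafilter (WeakDual ℂ X)) :
      Filter (WeakDual ℂ X)) ≤ 𝓟 (WeakDual.toStrongDual ⁻¹' closedBall (0 : StrongDual ℂ X) C) := by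
    rw [le_principal_iff]
    show (fun n => StrongDual.toWeakDual (y n)) ⁻¹'
      (WeakDual.toStrongDual ⁻¹' closedBall (0 : StrongDual ℂ X) C) ∈ (U : Filter ℕ)
    refine Filter.univ_mem' fun n => ?_
    show WeakDual.toStrongDual (StrongDual.toWeakDual (y n)) ∈ closedBall (0 : StrongDual ℂ X) C
    rw [mem_closedBall_zero_iff]
    exact hy n
  obtain ⟨e, he, hle'⟩ := hcomp.ultrafilter_le_nhds _ hle
  refine ⟨WeakDual.toStrongDual e, ?_, fun x => ?_⟩
  · have : WeakDual.toStrongDual e ∈ closedBall (0 : StrongDual ℂ X) C := he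
    rwa [mem_closedBall_zero_iff] at this
  · have h1 : Tendsto (fun n => StrongDual.toWeakDual (y n)) U (𝓝 e) := hle'
    exact ((WeakDual.eval_continuous x).tendsto e).comp h1

lemma lim_dual (Φ : C(K, ℂ) →ₐ[ℂ] (X →L[ℂ] X)) (v : X →L[ℂ] ℂ) :
    Lim (adΦ Φ) v (range (ev : X → (X →L[ℂ] ℂ) →L[ℂ] ℂ)) := by
  intro U h B C _ hC
  obtain ⟨e, he, hl⟩ := weak_lim U (fun n => adΦ Φ (h n) v) C hC
  refine ⟨e, he, ?_⟩
  rintro _ ⟨x, rfl⟩
  exact hl x

/-- an operator with invertible adjoint is invertible -/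
theorem unit_of_ad [CompleteSpace X] {A : X →L[ℂ] X} (h : IsUnit (ad A)) : IsUnit A := by
  obtain ⟨⟨A', B, h1, h2⟩, hA'⟩ := h
  change A' = ad A at hA'
  subst hA'
  have hb : ∀ x, ‖x‖ ≤ ‖B‖ * ‖A x‖ := by
    intro x
    refine NormedSpace.norm_le_dual_bound ℂ x (by positivity) fun f => ?_
    have e1 : f x = (B f) (A x) := by
      have := congrArg (fun S : (X →L[ℂ] ℂ) →L[ℂ] (X →L[ℂ] ℂ) => S f x) h1
      exact this.symm
    rw [e1]
    calc ‖(B f) (A x)‖ ≤ ‖B f‖ * ‖A x‖ := (B f).le_opNorm _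
      _ ≤ (‖B‖ * ‖f‖) * ‖A x‖ := by gcongr; exact B.le_opNorm f
      _ = ‖B‖ * ‖A x‖ * ‖f‖ := by ring
  have hanti : AntilipschitzWith ⟨‖B‖, norm_nonneg B⟩ A := by
    refine AddMonoidHomClass.antilipschitz_of_bound A fun x => ?_
    exact hb x
  have hcl : IsClosed (range A) := hanti.isClosed_range A.uniformContinuous
  rw [ContinuousLinearMap.isUnit_iff_bijective]
  refine ⟨hanti.injective, ?_⟩
  rw [← Set.range_eq_univ]
  by_contra hne
  obtain ⟨x₀, hx₀⟩ : ∃ x₀, x₀ ∉ range A := by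
    by_contra hcon
    push Not at hcon
    exact hne (eq_univ_of_forall hcon)
  let R : Submodule ℂ X := LinearMap.range (A : X →ₗ[ℂ] X)
  have hRc : IsClosed (R : Set X) := by
    have : (R : Set X) = range A := LinearMap.coe_range _
    rw [this]; exact hcl
  have hx₀' : x₀ ∉ R := fun hx => hx₀ (by
    obtain ⟨y, hy⟩ := hx
    exact ⟨y, hy⟩)
  obtain ⟨f, hf0, hf⟩ : ∃ f : X →L[ℂ] ℂ, f x₀ ≠ 0 ∧ ∀ y ∈ R, f y = 0 := by
    obtain ⟨f, b, h3, h4⟩ := RCLike.geometric_hahn_banach_point_closed (𝕜 := ℂ)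
      (t := (R : Set X)) ((R.restrictScalars ℝ).convex) hRc hx₀'
    have h5 : b < 0 := by
      have := h4 0 R.zero_mem
      simpa using this
    refine ⟨f, fun h0 => ?_, fun y hy => ?_⟩
    · rw [h0] at h3
      simp only [map_zero] at h3
      linarith
    · by_contra h0
      have h6 := h4 ((((b - 1 : ℝ) : ℂ) / f y) • y) (R.smul_mem _ hy)
      rw [map_smul, smul_eq_mul, div_mul_cancel₀ _ h0] at h6
      simp only [RCLike.re_eq_complex_re, Complex.ofReal_re] at h6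
      linarith
  have h3 : ad A f = 0 := by
    ext x
    exact hf _ ⟨x, rfl⟩
  have h4 : f = 0 := by
    have := congrArg (fun S : (X →L[ℂ] ℂ) →L[ℂ] (X →L[ℂ] ℂ) => S f) h2
    change B (ad A f) = f at this
    rw [← this, h3, map_zero]
  exact hf0 (by rw [h4]; rfl)

end dual

end Pool.Agent.R277.SP
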