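import Pool.Agent.R277.SP.Main
import Pool.Agent.W577.HI.G1

/-!
# Rank one perturbations of scalar type operators on Banach spaces: the theorem, second part
-/

set_option autoImplicit false

namespace Pool.Agent.R277.SP

open MeasureTheory Set Metric Filter Topology
open scoped ENNReal NNReal ComplexConjugate ContDiff InnerProductSpace
open Pool.Agent.Y283.NK (HasHyp)

section weak

variable {X : Type} [NormedAddCommGroup X] [NormedSpace ℂ X]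

/-- `X` is reflexive -/
def Refl (X : Type) [NormedAddCommGroup X] [NormedSpace ℂ X] : Prop :=
  ∀ G : (X →L[ℂ] ℂ) →L[ℂ] ℂ, ∃ x : X, ∀ f : X →L[ℂ] ℂ, G f = f x

variable {K : Set ℂ} [CompactSpace K]

/-- the set of the vectors `Φ(h) u`, `‖h‖ ≤ 1`, is relatively weakly compact -/
def WCO (Φ : C(K, ℂ) →ₐ[ℂ] (X →L[ℂ] X)) (u : X) : Prop :=
  IsCompact (closure (toWeakSpace ℂ X '' {y | ∃ h : C(K, ℂ), ‖h‖ ≤ 1 ∧ y = Φ h u}))

lemma lim_refl (hR : Refl X) (Φ : C(K, ℂ) →ₐ[ℂ] (X →L[ℂ] X)) (u : X) :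
    Lim Φ u (univ : Set (X →L[ℂ] ℂ)) := by
  intro U h B C _ hC
  have hev : ∀ n, ‖ev (Φ (h n) u)‖ ≤ C := by
    intro n
    have hC0 : 0 ≤ C := (norm_nonneg _).trans (hC n)
    refine ContinuousLinearMap.opNorm_le_bound _ hC0 fun f => ?_
    rw [ev_apply]
    calc ‖f (Φ (h n) u)‖ ≤ ‖f‖ * ‖Φ (h n) u‖ := f.le_opNorm _
      _ ≤ ‖f‖ * C := by gcongr; exact hC n
      _ = C * ‖f‖ := mul_comm _ _
  obtain ⟨G, hG, hl⟩ := weak_lim U (fun n => ev (Φ (h n) u)) C hev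
  obtain ⟨e, he⟩ := hR G
  refine ⟨e, ?_, fun f _ => ?_⟩
  · refine NormedSpace.norm_le_dual_bound ℂ e ((norm_nonneg _).trans hG) fun f => ?_
    rw [← he f]
    exact (G.le_opNorm f).trans (by gcongr)
  · rw [← he f]
    exact hl f

lemma lim_wco (Φ : C(K, ℂ) →ₐ[ℂ] (X →L[ℂ] X)) (u : X) (hW : WCO Φ u) :
    Lim Φ u (univ : Set (X →L[ℂ] ℂ)) := by
  intro U h B C hB hC
  set b : ℝ := max B 1 with hb
  have hb0 : 0 < b := lt_max_of_lt_right one_pos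
  have hbB : ∀ n, ‖h n‖ ≤ b := fun n => (hB n).trans (le_max_left _ _)
  set g : ℕ → C(K, ℂ) := fun n => ((b : ℂ)⁻¹) • h n with hg
  have hg1 : ∀ n, ‖g n‖ ≤ 1 := by
    intro n
    rw [hg]
    simp only [norm_smul, norm_inv, Complex.norm_real, Real.norm_of_nonneg hb0.le]
    rw [inv_mul_le_iff₀ hb0, mul_one]
    exact hbB n
  have hle : ((U.map (fun n => toWeakSpace ℂ X (Φ (g n) u)) : Ultrafilter (WeakSpace ℂ X)) :
      Filter (WeakSpace ℂ X)) ≤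
      𝓟 (closure (toWeakSpace ℂ X '' {y | ∃ h : C(K, ℂ), ‖h‖ ≤ 1 ∧ y = Φ h u})) := by
    rw [le_principal_iff]
    show (fun n => toWeakSpace ℂ X (Φ (g n) u)) ⁻¹' _ ∈ (U : Filter ℕ)
    refine Filter.univ_mem' fun n => ?_
    exact subset_closure ⟨_, ⟨g n, hg1 n, rfl⟩, rfl⟩
  obtain ⟨e', -, he'⟩ := hW.ultrafilter_le_nhds _ hle
  have h1 : Tendsto (fun n => toWeakSpace ℂ X (Φ (g n) u)) U (𝓝 e') := he'
  set e : X := (b : ℂ) • (toWeakSpace ℂ X).symm e' with he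
  have hl : ∀ f : X →L[ℂ] ℂ, Tendsto (fun n => f (Φ (h n) u)) U (𝓝 (f e)) := by
    intro f
    have h2 : Tendsto (fun n => f (Φ (g n) u)) U (𝓝 (f ((toWeakSpace ℂ X).symm e'))) := by
      have h3 := ((WeakBilin.eval_continuous (topDualPairing ℂ X).flip f).tendsto e').comp h1
      exact h3
    have h4 := h2.const_mul (b : ℂ)
    rw [he, map_smul, smul_eq_mul]
    refine h4.congr fun n => ?_
    simp only [hg, map_smul, smul_apply, smul_eq_mul]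
    have : (b : ℂ) ≠ 0 := by exact_mod_cast hb0.ne'
    field_simp
  refine ⟨e, ?_, fun f _ => hl f⟩
  have hC0 : 0 ≤ C := (norm_nonneg _).trans (hC 0)
  refine NormedSpace.norm_le_dual_bound ℂ e hC0 fun f => ?_
  refine le_of_tendsto (hl f).norm (Eventually.of_forall fun n => ?_)
  calc ‖f (Φ (h n) u)‖ ≤ ‖f‖ * ‖Φ (h n) u‖ := f.le_opNorm _
    _ ≤ ‖f‖ * C := by gcongr; exact hC n
    _ = C * ‖f‖ := mul_comm _ _

end weak

/-! ### Annihilation -/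

section ann

variable {X : Type} [NormedAddCommGroup X] [NormedSpace ℂ X]

/-- the vectors `Q x`, `Q` in the commutant -/
def V0 (T : X →L[ℂ] X) (x : X) : Submodule ℂ X where
  carrier := {y | ∃ Q : X →L[ℂ] X, Q * T = T * Q ∧ Q x = y}
  add_mem' := by
    rintro _ _ ⟨Q, hQ, rfl⟩ ⟨Q', hQ', rfl⟩
    exact ⟨Q + Q', by rw [add_mul, mul_add, hQ, hQ'], rfl⟩
  zero_mem' := ⟨0, by rw [zero_mul, mul_zero], rfl⟩
  smul_mem' := by
    rintro c _ ⟨Q, hQ, rfl⟩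
    exact ⟨c • Q, by rw [smul_mul_assoc, mul_smul_comm, hQ], rfl⟩

theorem V0_inv {T : X →L[ℂ] X} {x : X}
    {Q : X →L[ℂ] X} (hQ : Q * T = T * Q) {y : X} (hy : y ∈ V0 T x) : Q y ∈ V0 T x := by
  obtain ⟨Q', hQ', rfl⟩ := hy
  exact ⟨Q * Q', by rw [mul_assoc, hQ', ← mul_assoc, hQ, mul_assoc], rfl⟩

theorem zero_of {x K ρ δ : ℝ} (hδ : 0 < δ) (hρ : 0 ≤ ρ) (h : ρ < δ) (hx : 0 ≤ x)
    (hb : ∀ n : ℕ, δ ^ n * x ≤ K * ρ ^ n) : x = 0 := by
  have h1 : ∀ n : ℕ, x ≤ K * (ρ / δ) ^ n := by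
    intro n
    have h2 := hb n
    rw [div_pow, ← mul_div_assoc, le_div_iff₀ (pow_pos hδ n), mul_comm]
    exact h2
  have h3 : Tendsto (fun n : ℕ => K * (ρ / δ) ^ n) atTop (𝓝 (K * 0)) :=
    (tendsto_pow_atTop_nhds_zero_of_lt_one (div_nonneg hρ hδ.le) ((div_lt_one hδ).2 h)).const_mul K
  rw [mul_zero] at h3
  exact le_antisymm (ge_of_tendsto' h3 h1) hx

/-- vectors with disjoint local spectra annihilate each other -/
theorem ann (T : X →L[ℂ] X) (c₁ c₂ : ℂ) (r₁ r₂ C₁ C₂ : ℝ) (x : ℕ → X) (y : ℕ → (X →L[ℂ] ℂ))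
    (hr1 : 0 ≤ r₁) (hr2 : 0 ≤ r₂) (hr : r₁ + r₂ < ‖c₁ - c₂‖)
    (hX : ∀ a, T (x a) - c₁ • x a = x (a + 1)) (hXb : ∀ a, ‖x a‖ ≤ C₁ * r₁ ^ a)
    (hY : ∀ a, ad T (y a) - c₂ • y a = y (a + 1)) (hYb : ∀ a, ‖y a‖ ≤ C₂ * r₂ ^ a)
    (hX0 : x 0 ≠ 0) (hY0 : y 0 ≠ 0) : HasHyp T := by
  have horth : ∀ Q : X →L[ℂ] X, Q * T = T * Q → y 0 (Q (x 0)) = 0 := by
    intro Q hQ
    have hrec : ∀ a b, y (b + 1) (Q (x a)) - y b (Q (x (a + 1))) =
        (c₁ - c₂) * y b (Q (x a)) := by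
      intro a b
      have e1 : Q (T (x a)) = T (Q (x a)) := by
        have := congrArg (fun R : X →L[ℂ] X => R (x a)) hQ
        exact this
      rw [← hX a, ← hY b, sub_apply, ad_apply2, smul_apply, map_sub, map_smul, map_sub, map_smul,
        e1, smul_eq_mul, smul_eq_mul]
      ring
    have hC1 : 0 ≤ C₁ := by
      have := (norm_nonneg _).trans (hXb 0)
      simpa using this
    have hC2 : 0 ≤ C₂ := by
      have := (norm_nonneg _).trans (hYb 0)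
      simpa using this
    have hbd : ∀ n a b : ℕ, ‖c₁ - c₂‖ ^ n * ‖y b (Q (x a))‖ ≤
        ‖Q‖ * C₁ * C₂ * (r₁ + r₂) ^ n * (r₁ ^ a * r₂ ^ b) := by
      intro n
      induction n with
      | zero =>
        intro a b
        have h1 : ‖y b (Q (x a))‖ ≤ ‖y b‖ * (‖Q‖ * ‖x a‖) :=
          ((y b).le_opNorm _).trans
            (mul_le_mul_of_nonneg_left (Q.le_opNorm _) (norm_nonneg _))
        have h2 : ‖y b‖ * (‖Q‖ * ‖x a‖) ≤ (C₂ * r₂ ^ b) * (‖Q‖ * (C₁ * r₁ ^ a)) := by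
          refine mul_le_mul (hYb b) (mul_le_mul_of_nonneg_left (hXb a) (norm_nonneg _))
            (by positivity) (by positivity)
        rw [pow_zero, one_mul, pow_zero, mul_one]
        refine (h1.trans h2).trans (le_of_eq (by ring))
      | succ n ih =>
        intro a b
        have h1 := ih a (b + 1)
        have h2 := ih (a + 1) b
        have h3 : ‖c₁ - c₂‖ * ‖y b (Q (x a))‖ ≤
            ‖y (b + 1) (Q (x a))‖ + ‖y b (Q (x (a + 1)))‖ := by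
          rw [← norm_mul, ← hrec a b]
          exact norm_sub_le _ _
        calc ‖c₁ - c₂‖ ^ (n + 1) * ‖y b (Q (x a))‖
            = ‖c₁ - c₂‖ ^ n * (‖c₁ - c₂‖ * ‖y b (Q (x a))‖) := by ring
          _ ≤ ‖c₁ - c₂‖ ^ n * (‖y (b + 1) (Q (x a))‖ + ‖y b (Q (x (a + 1)))‖) :=
              mul_le_mul_of_nonneg_left h3 (by positivity)
          _ ≤ ‖Q‖ * C₁ * C₂ * (r₁ + r₂) ^ n * (r₁ ^ a * r₂ ^ (b + 1)) +
              ‖Q‖ * C₁ * C₂ * (r₁ + r₂) ^ n * (r₁ ^ (a + 1) * r₂ ^ b) := by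
              rw [mul_add]
              exact add_le_add h1 h2
          _ = _ := by ring
    have h0 := zero_of (x := ‖y 0 (Q (x 0))‖) (K := ‖Q‖ * C₁ * C₂) (ρ := r₁ + r₂)
      (δ := ‖c₁ - c₂‖) (lt_of_le_of_lt (by positivity) hr) (by positivity) hr (norm_nonneg _)
      (fun n => by simpa using hbd n 0 0)
    exact norm_eq_zero.1 h0
  refine ⟨(V0 T (x 0)).topologicalClosure, Submodule.isClosed_topologicalClosure _, ?_, ?_, ?_⟩
  · intro h
    have h1 : x 0 ∈ (V0 T (x 0)).topologicalClosure :=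
      Submodule.le_topologicalClosure _ ⟨1, by rw [one_mul, mul_one], rfl⟩
    rw [h, Submodule.mem_bot] at h1
    exact hX0 h1
  · intro h
    apply hY0
    ext z
    have h1 : z ∈ (V0 T (x 0)).topologicalClosure := by rw [h]; exact Submodule.mem_top
    have h2 : ((V0 T (x 0)).topologicalClosure : Set X) ⊆ {z | y 0 z = 0} := by
      rw [Submodule.topologicalClosure_coe]
      refine closure_minimal ?_ (isClosed_eq (y 0).continuous continuous_const)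
      rintro _ ⟨Q, hQ, rfl⟩
      exact horth Q hQ
    exact h2 h1
  · intro Q hQ z hz
    have h1 : z ∈ closure ((V0 T (x 0)) : Set X) := by
      rw [← Submodule.topologicalClosure_coe]; exact hz
    have h2 : Q z ∈ closure ((V0 T (x 0)) : Set X) :=
      map_mem_closure Q.continuous h1 fun y hy => V0_inv hQ hy
    rw [← Submodule.topologicalClosure_coe] at h2
    exact h2

lemma hyp_shift {T : X →L[ℂ] X} (c : ℂ) (h : HasHyp (T - c • (1 : X →L[ℂ] X))) : HasHyp T := by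
  obtain ⟨V, h1, h2, h3, h4⟩ := h
  refine ⟨V, h1, h2, h3, fun Q hQ x hx => h4 Q ?_ x hx⟩
  rw [mul_sub, sub_mul, hQ, mul_smul_comm, smul_mul_assoc, mul_one, one_mul]

theorem spec_ad [CompleteSpace X] {T : X →L[ℂ] X} {c : ℂ} (h : c ∈ spectrum ℂ T) :
    c ∈ spectrum ℂ (ad T) := by
  rw [spectrum.mem_iff, Algebra.algebraMap_eq_smul_one] at h ⊢
  intro h1
  apply h
  apply unit_of_ad
  have h2 : ad (c • (1 : X →L[ℂ] X) - T) =
      c • (1 : (X →L[ℂ] ℂ) →L[ℂ] (X →L[ℂ] ℂ)) - ad T := by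
    ext f x
    show f (c • x - T x) = c • f x - f (T x)
    rw [map_sub, map_smul]
  rw [h2]
  exact h1

theorem hyp_of_locv [CompleteSpace X] {T : X →L[ℂ] X} (h1 : LocV T) (h2 : LocV (ad T)) {c₁ c₂ : ℂ}
    (hc₁ : c₁ ∈ spectrum ℂ T) (hc₂ : c₂ ∈ spectrum ℂ T) (hne : c₁ ≠ c₂) : HasHyp T := by
  have hdist : 0 < ‖c₁ - c₂‖ := norm_pos_iff.2 (sub_ne_zero.2 hne)
  obtain ⟨x, C₁, hx0, hx⟩ := h1 c₁ hc₁ (‖c₁ - c₂‖ / 3) (by positivity)
  obtain ⟨y, C₂, hy0, hy⟩ := h2 c₂ (spec_ad hc₂) (‖c₁ - c₂‖ / 3) (by positivity)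
  refine ann T c₁ c₂ (‖c₁ - c₂‖ / 3) (‖c₁ - c₂‖ / 3) C₁ C₂
    (fun n => ((T - c₁ • (1 : X →L[ℂ] X)) ^ n) x)
    (fun n => ((ad T - c₂ • (1 : (X →L[ℂ] ℂ) →L[ℂ] (X →L[ℂ] ℂ))) ^ n) y)
    (by positivity) (by positivity) (by linarith) (fun a => ?_) hx (fun a => ?_) hy ?_ ?_
  · rw [pow_succ']
    rfl
  · rw [pow_succ']
    rfl
  · simpa using hx0
  · simpa using hy0

end ann

/-! ### The theorem -/

section thm

variable {X : Type} [NormedAddCommGroup X] [NormedSpace ℂ X] [CompleteSpace X] {K : Set ℂ}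
  [CompactSpace K]

theorem main {Φ : C(K, ℂ) →ₐ[ℂ] (X →L[ℂ] X)} {N : X →L[ℂ] X} {M : ℝ} (hF : FC Φ N M) {u : X}
    {v : X →L[ℂ] ℂ} {T : X →L[ℂ] X} (hT : ∀ x, T x = N x + v x • u)
    (hL : Lim Φ u (univ : Set (X →L[ℂ] ℂ))) :
    ((∃ c : ℂ, T = c • 1) ∨ HasHyp T) ∧ LocV T ∧ LocV (ad T) := by
  have hL1 : LocV T := locvec hF hT (F := univ)
    ⟨fun e he => by
      have := fun f : X →L[ℂ] ℂ => he f (mem_univ f)
      exact SeparatingDual.eq_zero_of_forall_dual_eq_zero (R := ℂ) this, fun f _ => mem_univ _⟩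
    (fun c => mem_univ _) hL
  have hL2 : LocV (ad T) := by
    have hT' : ∀ f : X →L[ℂ] ℂ, ad T f = ad N f + ev u f • v := by
      intro f
      ext x
      show f (T x) = f (N x) + f u * v x
      rw [hT, map_add, map_smul, smul_eq_mul, mul_comm]
    exact locvec hF.dual hT' (adm_dual T) (fun c => ⟨Φ c u, rfl⟩) (lim_dual Φ v)
  refine ⟨?_, hL1, hL2⟩
  by_cases hsc : ∃ c : ℂ, T = c • 1
  · exact Or.inl hsc
  right
  have hnt : Nontrivial X := by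
    by_contra h
    rw [not_nontrivial_iff_subsingleton] at h
    apply hsc
    refine ⟨0, ?_⟩
    ext1 f
    exact Subsingleton.elim _ _
  obtain ⟨c₁, hc₁⟩ := spectrum.nonempty T
  by_cases hone : ∀ z ∈ spectrum ℂ T, z = c₁
  · have h3 := one_point hF hT hone
    refine hyp_shift c₁ (Pool.Agent.W577.HI.G1.main _ _ h3 ?_)
    rintro ⟨c, hc⟩
    apply hsc
    refine ⟨c + c₁, ?_⟩
    rw [add_smul, ← hc]
    abel
  · push Not at hone
    obtain ⟨c₂, hc₂, hne⟩ := hone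
    exact hyp_of_locv hL1 hL2 hc₁ hc₂ (Ne.symm hne)

end thm

end Pool.Agent.R277.SP
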