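import Pool.Agent.R277.SP.Alt

/-!
# Rank one perturbations of scalar type operators on Banach spaces: exceptional points
-/

set_option autoImplicit false

namespace Pool.Agent.R277.SP

open MeasureTheory Set Metric Filter Topology
open scoped ENNReal NNReal ComplexConjugate ContDiff InnerProductSpace

variable {E : Type} [NormedAddCommGroup E] [NormedSpace ℂ E] {K : Set ℂ}
  [CompactSpace K] {Φ : C(K, ℂ) →ₐ[ℂ] (E →L[ℂ] E)} {N : E →L[ℂ] E} {M : ℝ}

/-- spaces all of whose vectors are close to the multiples of one vector -/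
lemma one_dim {L : Type} [NormedAddCommGroup L] [NormedSpace ℂ L] {E : Type} [NormedAddCommGroup E]
    [NormedSpace ℂ E] (j : L →ₗᵢ[ℂ] E) (g : E) (h : ∀ x : L, ∃ c : ℂ, ‖j x - c • g‖ ≤ 1 / 5 * ‖x‖) :
    ∃ e : L, ∀ x : L, ∃ c : ℂ, x = c • e := by
  by_cases h0 : ∀ e : L, e = 0
  · exact ⟨0, fun x => ⟨0, by rw [h0 x, smul_zero]⟩⟩
  push Not at h0
  obtain ⟨e, he⟩ := h0
  refine ⟨e, fun x => ?_⟩
  by_contra hx
  obtain ⟨y, hy, hyr⟩ := riesz_lemma (F := (Submodule.span ℂ {e} : Submodule ℂ L))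
    (Submodule.closed_of_finiteDimensional _) ⟨x, fun hm => hx (by
      obtain ⟨c, hc⟩ := Submodule.mem_span_singleton.1 hm
      exact ⟨c, hc.symm⟩)⟩ (r := 3 / 4) (by norm_num)
  have hy0 : y ≠ 0 := by
    rintro rfl
    exact hy (Submodule.zero_mem _)
  have hyn : 0 < ‖y‖ := norm_pos_iff.2 hy0
  have hen : 0 < ‖e‖ := norm_pos_iff.2 he
  obtain ⟨c₁, h1⟩ := h e
  obtain ⟨c₀, h2⟩ := h y
  have hc1 : c₁ ≠ 0 := by
    rintro rfl
    rw [zero_smul, sub_zero, j.norm_map] at h1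
    linarith
  have h3 := hyr ((c₀ / c₁) • e) (Submodule.smul_mem _ _ (Submodule.mem_span_singleton_self e))
  have hg1 : 4 / 5 * ‖e‖ ≤ ‖c₁‖ * ‖g‖ := by
    have h4 : ‖j e‖ ≤ ‖j e - c₁ • g‖ + ‖c₁ • g‖ := by
      have := norm_add_le (j e - c₁ • g) (c₁ • g)
      rwa [sub_add_cancel] at this
    rw [j.norm_map, norm_smul] at h4
    linarith
  have hg0 : ‖c₀‖ * ‖g‖ ≤ 6 / 5 * ‖y‖ := by
    have h4 : ‖c₀ • g‖ ≤ ‖j y‖ + ‖j y - c₀ • g‖ := by
      have := norm_sub_le (j y) (j y - c₀ • g)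
      rwa [sub_sub_cancel] at this
    rw [j.norm_map, norm_smul] at h4
    linarith
  have h4 : ‖y - (c₀ / c₁) • e‖ ≤ 1 / 5 * ‖y‖ + ‖c₀‖ / ‖c₁‖ * (1 / 5 * ‖e‖) := by
    have e1 : j (y - (c₀ / c₁) • e) = (j y - c₀ • g) - (c₀ / c₁) • (j e - c₁ • g) := by
      rw [map_sub, map_smul, smul_sub, smul_smul, div_mul_cancel₀ _ hc1]
      abel
    rw [← j.norm_map, e1]
    refine (norm_sub_le _ _).trans (add_le_add h2 ?_)
    rw [norm_smul, norm_div]
    gcongr
  have hc1n : 0 < ‖c₁‖ := norm_pos_iff.2 hc1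
  have h5 : ‖c₀‖ / ‖c₁‖ * ‖e‖ ≤ 3 / 2 * ‖y‖ := by
    have hgn : 0 < ‖g‖ := by
      by_contra hg
      have : ‖g‖ = 0 := le_antisymm (not_lt.1 hg) (norm_nonneg _)
      rw [this, mul_zero] at hg1
      linarith
    rw [div_mul_eq_mul_div, div_le_iff₀ hc1n]
    have h6 : ‖c₀‖ * ‖e‖ * ‖g‖ ≤ 3 / 2 * ‖y‖ * ‖c₁‖ * ‖g‖ := by
      calc ‖c₀‖ * ‖e‖ * ‖g‖ = (‖c₀‖ * ‖g‖) * ‖e‖ := by ring
        _ ≤ (6 / 5 * ‖y‖) * ‖e‖ := by gcongr
        _ = 3 / 2 * ‖y‖ * (4 / 5 * ‖e‖) := by ring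
        _ ≤ 3 / 2 * ‖y‖ * (‖c₁‖ * ‖g‖) := by gcongr
        _ = _ := by ring
    exact le_of_mul_le_mul_right h6 hgn
  nlinarith

/-- near an exceptional point the functional calculus is at most one-dimensional -/
theorem FC.near [CompleteSpace E] (hF : FC Φ N M) (a : ℂ) (u : E)
    (hs : ∀ x, ∃ (W : E) (c : ℂ), x = N W - a • W + c • u) :
    ∃ t : ℝ, 0 < t ∧ ∃ e : E, (∃ b : ℂ, N e = b • e) ∧
      (∀ h : C(K, ℂ), ∃ b : ℂ, Φ h e = b • e) ∧
      ∀ h : C(K, ℂ), (∀ s : K, t ≤ ‖(s : ℂ) - a‖ → h s = 0) →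
      ∀ x, ∃ c : ℂ, Φ h x = c • e := by
  -- open mapping
  let S : (E × ℂ) →L[ℂ] E := (N - a • (1 : E →L[ℂ] E)).comp (ContinuousLinearMap.fst ℂ E ℂ) +
    (ContinuousLinearMap.snd ℂ E ℂ).smulRight u
  have hS : Function.Surjective S := by
    intro x
    obtain ⟨W, c, h⟩ := hs x
    exact ⟨(W, c), h.symm⟩
  obtain ⟨C, hC0, hC⟩ := S.exists_preimage_norm_le hS
  have hM := hF.nonneg
  set t : ℝ := 1 / (10 * (M * C + 1)) with ht
  have ht0 : 0 < t := by positivity
  have htb : M * (2 * t) * C ≤ 1 / 5 := by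
    have h1 : M * (2 * t) * C = (M * C) / (M * C + 1) / 5 := by
      rw [ht]
      field_simp
      ring
    rw [h1]
    have h2 : (M * C) / (M * C + 1) ≤ 1 := by
      rw [div_le_one (by positivity)]
      linarith
    linarith
  obtain ⟨χ, c1, c2, c3, c4⟩ := exists_bump a (s := t) (t := 2 * t) ht0 (by linarith)
  have hχ0 : ∀ z, 2 * t ≤ ‖z - a‖ → χ z = 0 := fun z hz =>
    image_eq_zero_of_notMem_tsupport (c4 z hz)
  have hχc := c1.continuous
  have hχ1c : Continuous (fun z => (z - a) * χ z) := by fun_prop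
  -- the space
  let L : Submodule ℂ E := LinearMap.ker ((Φ (cK K χ) - 1 : E →L[ℂ] E) : E →ₗ[ℂ] E)
  have hL : ∀ x, x ∈ L ↔ Φ (cK K χ) x = x := by
    intro x
    show Φ (cK K χ) x - x = 0 ↔ _
    exact sub_eq_zero
  have key : ∀ x : L, ∃ c : ℂ, ‖L.subtypeₗᵢ x - c • Φ (cK K χ) u‖ ≤ 1 / 5 * ‖x‖ := by
    intro x
    obtain ⟨⟨W, c⟩, h1, h2⟩ := hC x
    refine ⟨c, ?_⟩
    have h1' : N W - a • W + c • u = (x : E) := h1
    have h3 : ‖W‖ ≤ C * ‖x‖ := (norm_fst_le (W, c)).trans h2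
    have h4 : (x : E) = N (Φ (cK K χ) W) - a • Φ (cK K χ) W + c • Φ (cK K χ) u := by
      have hx := (hL x).1 x.2
      rw [← h1'] at hx
      conv_lhs => rw [← h1', ← hx]
      have hcomm : Φ (cK K χ) (N W) = N (Φ (cK K χ) W) := by
        have := congrArg (fun A : E →L[ℂ] E => A W) (hF.comm (cK K χ))
        exact this.symm
      rw [map_add, map_sub, map_smul, map_smul, hcomm]
    have h5 : (x : E) - c • Φ (cK K χ) u = Φ (cK K (fun z => (z - a) * χ z)) W := by
      have := hF.step (h := cK K χ) (h' := cK K (fun z => (z - a) * χ z)) (a := a) (c := 0)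
        (fun s => by rw [cK_apply hχc, cK_apply hχ1c]; ring) W
      rw [zero_smul, sub_zero] at this
      rw [h4, ← this]
      abel
    show ‖(x : E) - c • Φ (cK K χ) u‖ ≤ _
    rw [h5]
    calc _ ≤ M * (2 * t) * ‖W‖ := by
          refine hF.bd_apply (by positivity) (fun s => ?_) W
          rw [cK_apply hχ1c, norm_mul]
          by_cases hz : 2 * t ≤ ‖(s : ℂ) - a‖
          · rw [hχ0 _ hz, norm_zero, mul_zero]
            positivity
          · calc _ ≤ 2 * t * 1 := mul_le_mul (not_le.1 hz).le (c2 _) (norm_nonneg _) (by positivity)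
              _ = 2 * t := mul_one _
      _ ≤ M * (2 * t) * (C * ‖x‖) := by gcongr
      _ = M * (2 * t) * C * ‖x‖ := by ring
      _ ≤ 1 / 5 * ‖x‖ := by gcongr
  obtain ⟨e, he⟩ := one_dim L.subtypeₗᵢ (Φ (cK K χ) u) key
  have hLΦ : ∀ (h : C(K, ℂ)) (x : E), x ∈ L → Φ h x ∈ L := by
    intro h x hx
    rw [hL] at hx ⊢
    have h2 : Φ (cK K χ) (Φ h x) = Φ h (Φ (cK K χ) x) := by
      have : Φ (cK K χ) * Φ h = Φ h * Φ (cK K χ) := by
        rw [← map_mul, ← map_mul, mul_comm]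
      exact congrArg (fun A : E →L[ℂ] E => A x) this
    rw [h2, hx]
  have hΦe : ∀ h : C(K, ℂ), ∃ b : ℂ, Φ h (e : E) = b • (e : E) := by
    intro h
    obtain ⟨b, hb⟩ := he ⟨_, hLΦ h e e.2⟩
    exact ⟨b, congrArg Subtype.val hb⟩
  refine ⟨t, ht0, e, ?_, hΦe, ?_⟩
  · obtain ⟨b, hb⟩ := hΦe (zz K)
    rw [hF.id] at hb
    exact ⟨b, hb⟩
  · intro h h0 x
    have h1 : Φ h x ∈ L := by
      rw [hL]
      have h2 : Φ (cK K χ) (Φ h x) = Φ (cK K χ * h) x := by
        rw [map_mul]; rfl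
      rw [h2]
      congr 2
      ext s
      rw [ContinuousMap.mul_apply, cK_apply hχc]
      by_cases hz : t ≤ ‖(s : ℂ) - a‖
      · rw [h0 s hz, mul_zero]
      · rw [c3 _ (by rw [mem_ball, dist_eq_norm]; exact not_le.1 hz), one_mul]
    obtain ⟨c, hc⟩ := he ⟨_, h1⟩
    exact ⟨c, congrArg Subtype.val hc⟩

/-- operators of rank one are compact -/
lemma compact_of_rank {P : E →L[ℂ] E} (e : E) (h : ∀ x, ∃ c : ℂ, P x = c • e) :
    IsCompactOperator P := by
  refine ⟨(fun c : ℂ => c • e) '' closedBall 0 1,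
    (isCompact_closedBall 0 1).image (by fun_prop), ?_⟩
  by_cases he : e = 0
  · refine Filter.univ_mem' fun x => ?_
    obtain ⟨c, hc⟩ := h x
    refine ⟨0, by simp, ?_⟩
    show (0 : ℂ) • e = P x
    rw [hc, he, smul_zero, smul_zero]
  · have hen : 0 < ‖e‖ := norm_pos_iff.2 he
    have h1 : P ⁻¹' (ball 0 ‖e‖) ∈ 𝓝 (0 : E) := by
      apply P.continuous.continuousAt.preimage_mem_nhds
      rw [map_zero]
      exact ball_mem_nhds 0 hen
    filter_upwards [h1] with x hx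
    obtain ⟨c, hc⟩ := h x
    refine ⟨c, ?_, hc.symm⟩
    rw [mem_preimage, mem_ball_zero_iff, hc, norm_smul] at hx
    rw [mem_closedBall_zero_iff]
    by_contra hlt
    nlinarith [not_le.1 hlt]

/-- at an exceptional point `N - a` is invertible modulo compact operators -/
theorem FC.pt [CompleteSpace E] (hF : FC Φ N M) (a : ℂ) (u : E)
    (hs : ∀ x, ∃ (W : E) (c : ℂ), x = N W - a • W + c • u) :
    (∃ A G : E →L[ℂ] E, N = A + G ∧ IsCompactOperator G ∧ a ∉ spectrum ℂ A) ∧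
      ∃ h : C(K, ℂ), (∀ ha : a ∈ K, h ⟨a, ha⟩ ≠ 0) ∧ IsCompactOperator (Φ h) := by
  obtain ⟨t, ht, e, ⟨b, hb⟩, hΦe, he⟩ := hF.near a u hs
  obtain ⟨χ, c1, c2, c3, c4⟩ := exists_bump a (s := t / 2) (t := t) (by positivity) (by linarith)
  have hχ0 : ∀ z, t ≤ ‖z - a‖ → χ z = 0 := fun z hz =>
    image_eq_zero_of_notMem_tsupport (c4 z hz)
  have hχc := c1.continuous
  set P : E →L[ℂ] E := Φ (cK K χ) with hP
  have hPe : ∀ x, ∃ c : ℂ, P x = c • e := he _ fun s hs => by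
    rw [cK_apply hχc, hχ0 _ hs]
  have hPc : IsCompactOperator P := compact_of_rank e hPe
  obtain ⟨ρ, -, hρ⟩ := hF.far a (s := t / 2) (by positivity) hχc c3
  set W : E →L[ℂ] E := Φ ρ with hW
  have hNW : (N - a • (1 : E →L[ℂ] E)) * W = 1 - P := by
    ext x
    exact hρ x
  have hcWP : W * P = P * W := by rw [hW, hP, ← map_mul, ← map_mul, mul_comm]
  have hcNW : N * W = W * N := hF.comm ρ
  have hcNP : N * P = P * N := hF.comm _
  refine ⟨?_, cK K χ, fun ha => ?_, hPc⟩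
  swap
  · rw [cK_apply hχc, c3 a (mem_ball_self (by positivity))]
    exact one_ne_zero
  obtain ⟨p, hp⟩ := hΦe (cK K χ)
  have hPP : P * P = p • P := by
    ext x
    obtain ⟨c, hc⟩ := hPe x
    show P (P x) = p • P x
    rw [hc, map_smul, hp, smul_comm]
  have hNP : N * P = b • P := by
    ext x
    obtain ⟨c, hc⟩ := hPe x
    show N (P x) = b • P x
    rw [hc, map_smul, hb, smul_comm]
  -- invertibility from an explicit inverse
  have hunit : ∀ A B : E →L[ℂ] E, A * B = 1 → B * A = 1 → a ∉ spectrum ℂ (A + a • 1) := by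
    intro A B h1 h2
    rw [spectrum.mem_iff, not_not, Algebra.algebraMap_eq_smul_one]
    have h3 : a • (1 : E →L[ℂ] E) - (A + a • 1) = -A := by abel
    rw [h3]
    have h4 : IsUnit A := ⟨⟨A, B, h1, h2⟩, rfl⟩
    exact h4.neg
  by_cases hp1 : p = 1
  · -- `P` is a projection
    rw [hp1, one_smul] at hPP
    set κ : ℂ := 1 - (b - a) with hκ
    have hNP' : (N - a • (1 : E →L[ℂ] E)) * P = (b - a) • P := by
      rw [sub_mul, hNP, smul_mul_assoc, one_mul, sub_smul]
    have hinv : ((N - a • (1 : E →L[ℂ] E)) + κ • P) * (W * (1 - P) + P) = 1 := by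
      have e1 : (N - a • (1 : E →L[ℂ] E)) * (W * (1 - P)) = 1 - P := by
        rw [← mul_assoc, hNW, mul_sub, mul_one, sub_mul, one_mul, hPP, sub_self, sub_zero]
      have e2 : P * (W * (1 - P)) = 0 := by
        rw [← mul_assoc, ← hcWP, mul_assoc, mul_sub, mul_one, hPP, sub_self, mul_zero]
      rw [add_mul, mul_add, mul_add, e1, hNP', smul_mul_assoc, e2, smul_mul_assoc, hPP, smul_zero,
        zero_add, hκ]
      module
    have hcomm : (W * (1 - P) + P) * ((N - a • (1 : E →L[ℂ] E)) + κ • P) =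
        ((N - a • (1 : E →L[ℂ] E)) + κ • P) * (W * (1 - P) + P) := by
      have c1 : Commute (W * (1 - P) + P) ((N - a • (1 : E →L[ℂ] E)) + κ • P) := by
        have d1 : Commute W N := hcNW.symm
        have d2 : Commute P N := hcNP.symm
        have d3 : Commute W P := hcWP
        have d4 : Commute W (N - a • (1 : E →L[ℂ] E)) :=
          d1.sub_right ((Commute.one_right W).smul_right a)
        have d5 : Commute P (N - a • (1 : E →L[ℂ] E)) :=
          d2.sub_right ((Commute.one_right P).smul_right a)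
        have d6 : Commute W ((N - a • (1 : E →L[ℂ] E)) + κ • P) := d4.add_right (d3.smul_right κ)
        have d7 : Commute P ((N - a • (1 : E →L[ℂ] E)) + κ • P) :=
          d5.add_right ((Commute.refl P).smul_right κ)
        exact (d6.mul_left ((Commute.one_left _).sub_left d7)).add_left d7
      exact c1.eq
    refine ⟨(N - a • (1 : E →L[ℂ] E)) + κ • P + a • 1, -(κ • P), by abel, (hPc.smul κ).neg,
      hunit _ _ hinv (hcomm.trans hinv)⟩
  · -- `N - a` is invertible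
    have hp1' : 1 - p ≠ 0 := sub_ne_zero.2 (Ne.symm hp1)
    have hinv : (N - a • (1 : E →L[ℂ] E)) * (W * (1 + (1 - p)⁻¹ • P)) = 1 := by
      rw [← mul_assoc, hNW, mul_add, mul_one, sub_mul, one_mul, mul_smul_comm, hPP, smul_smul]
      have : (1 - p)⁻¹ • P - ((1 - p)⁻¹ * p) • P = P := by
        rw [← sub_smul, show (1 - p)⁻¹ - (1 - p)⁻¹ * p = 1 by field_simp, one_smul]
      rw [this, sub_add_cancel]
    have hcomm : (W * (1 + (1 - p)⁻¹ • P)) * (N - a • (1 : E →L[ℂ] E)) =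
        (N - a • (1 : E →L[ℂ] E)) * (W * (1 + (1 - p)⁻¹ • P)) := by
      have d1 : Commute W N := hcNW.symm
      have d2 : Commute P N := hcNP.symm
      have d4 : Commute W (N - a • (1 : E →L[ℂ] E)) :=
        d1.sub_right ((Commute.one_right W).smul_right a)
      have d5 : Commute P (N - a • (1 : E →L[ℂ] E)) :=
        d2.sub_right ((Commute.one_right P).smul_right a)
      exact (d4.mul_left ((Commute.one_left _).add_left (d5.smul_left _))).eq
    refine ⟨(N - a • (1 : E →L[ℂ] E)) + a • 1, 0, by simp, isCompactOperator_zero,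
      hunit _ _ hinv (hcomm.trans hinv)⟩

/-- eigenvectors of compact perturbations -/
theorem eigen [CompleteSpace E] {S G : E →L[ℂ] E} (hG : IsCompactOperator G) {z : ℂ}
    (hzS : z ∉ spectrum ℂ S) (hzT : z ∈ spectrum ℂ (S + G)) :
    ∃ x : E, x ≠ 0 ∧ (S + G) x = z • x := by
  set R : E →L[ℂ] E := resolvent S z with hR
  have hu : IsUnit (algebraMap ℂ (E →L[ℂ] E) z - S) := by
    rw [spectrum.mem_iff, not_not] at hzS
    exact hzS
  have hR1 : (algebraMap ℂ (E →L[ℂ] E) z - S) * R = 1 := by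
    rw [hR, resolvent]
    exact Ring.mul_inverse_cancel _ hu
  have hfac : algebraMap ℂ (E →L[ℂ] E) z - (S + G) =
      (algebraMap ℂ (E →L[ℂ] E) z - S) * (1 - R * G) := by
    rw [mul_sub, mul_one, ← mul_assoc, hR1, one_mul]; abel
  have hnu : ¬ IsUnit (1 - R * G) := by
    intro h
    apply hzT
    rw [spectrum.mem_resolventSet_iff, hfac]
    exact hu.mul h
  have h1 : (1 : ℂ) ∈ spectrum ℂ (R * G) := by
    rw [spectrum.mem_iff]
    simpa using hnu
  have hcomp : IsCompactOperator (R * G) := hG.clm_comp R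
  have hev := (IsCompactOperator.hasEigenvalue_iff_mem_spectrum hcomp one_ne_zero).2 h1
  obtain ⟨x, hx⟩ := hev.exists_hasEigenvector
  have hRK : R (G x) = x := by
    have := hx.apply_eq_smul
    simpa using this
  have hSx : z • x - S x = G x := by
    have := congrArg (fun L : E →L[ℂ] E => L (G x)) hR1
    simp only [mul_apply_eq_comp, one_apply_eq_self, sub_apply, hRK] at this
    simpa [Algebra.algebraMap_eq_smul_one] using this
  refine ⟨x, hx.2, ?_⟩
  rw [add_apply, ← hSx]; abel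

end Pool.Agent.R277.SP
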