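import Pool.Agent.R277.SP.Main2

/-!
# Diagonal operators with respect to unconditional bases: the functional calculus
-/

set_option autoImplicit false

namespace Pool.Agent.R277.SP

open Set Metric Filter Topology

variable {X : Type} [NormedAddCommGroup X] [NormedSpace ℂ X]

/-- `e` is an unconditional basis with coefficient functionals `f` -/
structure UB (e : ℕ → X) (f : ℕ → (X →L[ℂ] ℂ)) : Prop where
  bi : ∀ i j, f i (e j) = if i = j then 1 else 0
  sum : ∀ x, HasSum (fun n => f n x • e n) x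

lemma abs_sum {F : Finset ℕ} (a : ℕ → ℂ) (B : ℝ) (h : ∀ G ⊆ F, ‖∑ n ∈ G, a n‖ ≤ B) :
    ∑ n ∈ F, ‖a n‖ ≤ 4 * B := by
  classical
  have h1 : ∀ n, ‖a n‖ ≤ max (a n).re 0 + max (-(a n).re) 0 + (max (a n).im 0 + max (-(a n).im) 0) := by
    intro n
    have e1 : max (a n).re 0 + max (-(a n).re) 0 = |(a n).re| := by
      rcases le_total 0 (a n).re with h | h
      · rw [max_eq_left h, max_eq_right (by linarith), abs_of_nonneg h, add_zero]
      · rw [max_eq_right h, max_eq_left (by linarith), abs_of_nonpos h, zero_add]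
    have e2 : max (a n).im 0 + max (-(a n).im) 0 = |(a n).im| := by
      rcases le_total 0 (a n).im with h | h
      · rw [max_eq_left h, max_eq_right (by linarith), abs_of_nonneg h, add_zero]
      · rw [max_eq_right h, max_eq_left (by linarith), abs_of_nonpos h, zero_add]
    rw [e1, e2]
    exact Complex.norm_le_abs_re_add_abs_im _
  have key : ∀ t : ℕ → ℝ, (∀ G ⊆ F, |∑ n ∈ G, t n| ≤ B) → ∑ n ∈ F, max (t n) 0 ≤ B := by
    intro t ht
    have e1 : ∑ n ∈ F, max (t n) 0 = ∑ n ∈ F.filter (fun n => 0 ≤ t n), t n := by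
      rw [Finset.sum_filter]
      refine Finset.sum_congr rfl fun n _ => ?_
      split_ifs with h
      · exact max_eq_left h
      · exact max_eq_right (not_le.1 h).le
    rw [e1]
    exact (le_abs_self _).trans (ht _ (Finset.filter_subset _ _))
  have hre : ∀ G ⊆ F, |∑ n ∈ G, (a n).re| ≤ B := by
    intro G hG
    rw [← Complex.re_sum]
    exact (Complex.abs_re_le_norm _).trans (h G hG)
  have him : ∀ G ⊆ F, |∑ n ∈ G, (a n).im| ≤ B := by
    intro G hG
    rw [← Complex.im_sum]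
    exact (Complex.abs_im_le_norm _).trans (h G hG)
  have k1 := key (fun n => (a n).re) hre
  have k2 := key (fun n => -(a n).re) (fun G hG => by
    rw [Finset.sum_neg_distrib, abs_neg]; exact hre G hG)
  have k3 := key (fun n => (a n).im) him
  have k4 := key (fun n => -(a n).im) (fun G hG => by
    rw [Finset.sum_neg_distrib, abs_neg]; exact him G hG)
  calc ∑ n ∈ F, ‖a n‖ ≤ ∑ n ∈ F, (max (a n).re 0 + max (-(a n).re) 0 +
        (max (a n).im 0 + max (-(a n).im) 0)) := Finset.sum_le_sum fun n _ => h1 n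
    _ = (∑ n ∈ F, max (a n).re 0 + ∑ n ∈ F, max (-(a n).re) 0) +
        (∑ n ∈ F, max (a n).im 0 + ∑ n ∈ F, max (-(a n).im) 0) := by
      rw [Finset.sum_add_distrib, Finset.sum_add_distrib, Finset.sum_add_distrib]
    _ ≤ 4 * B := by linarith

lemma sum_bd {F : Finset ℕ} (y : ℕ → X) (c : ℕ → ℂ) {b : ℝ} (hc : ∀ n, ‖c n‖ ≤ b) (B : ℝ)
    (h : ∀ G ⊆ F, ‖∑ n ∈ G, y n‖ ≤ B) : ‖∑ n ∈ F, c n • y n‖ ≤ b * (4 * B) := by
  have hb : 0 ≤ b := (norm_nonneg _).trans (hc 0)
  have hB : 0 ≤ B := (norm_nonneg _).trans (h ∅ (Finset.empty_subset _))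
  refine NormedSpace.norm_le_dual_bound ℂ _ (by positivity) fun g => ?_
  have h1 : ∑ n ∈ F, ‖g (y n)‖ ≤ 4 * (‖g‖ * B) := by
    refine abs_sum _ _ fun G hG => ?_
    rw [← map_sum]
    calc ‖g (∑ n ∈ G, y n)‖ ≤ ‖g‖ * ‖∑ n ∈ G, y n‖ := g.le_opNorm _
      _ ≤ ‖g‖ * B := by gcongr; exact h G hG
  rw [map_sum]
  calc ‖∑ n ∈ F, g (c n • y n)‖ ≤ ∑ n ∈ F, ‖g (c n • y n)‖ := norm_sum_le _ _
    _ ≤ ∑ n ∈ F, b * ‖g (y n)‖ := by
      refine Finset.sum_le_sum fun n _ => ?_
      rw [map_smul, norm_smul]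
      exact mul_le_mul_of_nonneg_right (hc n) (norm_nonneg _)
    _ = b * ∑ n ∈ F, ‖g (y n)‖ := by rw [Finset.mul_sum]
    _ ≤ b * (4 * (‖g‖ * B)) := by gcongr
    _ = b * (4 * B) * ‖g‖ := by ring

section complete

variable [CompleteSpace X] {e : ℕ → X} {f : ℕ → (X →L[ℂ] ℂ)}

/-- the partial sums of a summable family are bounded -/
lemma partial_bd {y : ℕ → X} (hy : Summable y) : ∃ B : ℝ, ∀ G : Finset ℕ, ‖∑ n ∈ G, y n‖ ≤ B := by
  classical
  obtain ⟨s, hs⟩ := summable_iff_vanishing_norm.1 hy 1 one_pos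
  refine ⟨∑ n ∈ s, ‖y n‖ + 1, fun G => ?_⟩
  rw [← Finset.sum_inter_add_sum_sdiff G s]
  refine (norm_add_le _ _).trans (add_le_add ?_ (hs _ Finset.sdiff_disjoint).le)
  exact (norm_sum_le _ _).trans (Finset.sum_le_sum_of_subset_of_nonneg Finset.inter_subset_right
    fun _ _ _ => norm_nonneg _)

/-- finite multipliers -/
noncomputable def S (e : ℕ → X) (f : ℕ → (X →L[ℂ] ℂ)) (F : Finset ℕ) (c : ℕ → ℂ) : X →L[ℂ] X :=
  ∑ n ∈ F, c n • (f n).smulRight (e n)

omit [CompleteSpace X] in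
lemma S_apply (F : Finset ℕ) (c : ℕ → ℂ) (x : X) : S e f F c x = ∑ n ∈ F, c n • (f n x • e n) := by
  simp [S]

lemma UB.unif (h : UB e f) : ∃ C : ℝ, 0 ≤ C ∧ ∀ (F : Finset ℕ) (c : ℕ → ℂ) (b : ℝ),
    (∀ n, ‖c n‖ ≤ b) → ‖S e f F c‖ ≤ b * C := by
  have h1 : ∀ x : X, ∃ C : ℝ, ∀ i : Finset ℕ × {c : ℕ → ℂ // ∀ n, ‖c n‖ ≤ 1},
      ‖S e f i.1 i.2.1 x‖ ≤ C := by
    intro x
    obtain ⟨B, hB⟩ := partial_bd (h.sum x).summable
    refine ⟨1 * (4 * B), fun i => ?_⟩
    rw [S_apply]
    exact sum_bd _ _ i.2.2 B fun G _ => hB G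
  obtain ⟨C, hC⟩ := banach_steinhaus h1
  refine ⟨max C 0, le_max_right _ _, fun F c b hc => ?_⟩
  have hb : 0 ≤ b := (norm_nonneg _).trans (hc 0)
  rcases hb.eq_or_lt with hb0 | hb0
  · have h2 : S e f F c = 0 := by
      ext x
      rw [S_apply]
      refine Finset.sum_eq_zero fun n _ => ?_
      have : c n = 0 := by
        have := hc n
        rw [← hb0] at this
        exact norm_le_zero_iff.1 this
      rw [this, zero_smul]
    rw [h2, norm_zero]
    positivity
  · have h2 : ∀ n, ‖(b : ℂ)⁻¹ * c n‖ ≤ 1 := by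
      intro n
      rw [norm_mul, norm_inv, Complex.norm_real, Real.norm_of_nonneg hb, inv_mul_le_iff₀ hb0, mul_one]
      exact hc n
    have h3 := hC (F, ⟨_, h2⟩)
    have h4 : S e f F c = (b : ℂ) • S e f F (fun n => (b : ℂ)⁻¹ * c n) := by
      ext x
      rw [S_apply, smul_apply, S_apply, Finset.smul_sum]
      refine Finset.sum_congr rfl fun n _ => ?_
      have : (b : ℂ) ≠ 0 := by exact_mod_cast hb0.ne'
      simp only [smul_smul, ← mul_assoc, mul_inv_cancel₀ this, one_mul]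
    rw [h4, norm_smul, Complex.norm_real, Real.norm_of_nonneg hb]
    exact mul_le_mul_of_nonneg_left (h3.trans (le_max_left _ _)) hb

omit [CompleteSpace X] in
lemma UB.coef_sum (h : UB e f) (t : Finset ℕ) (x : X) (n : ℕ) (hn : n ∈ t) :
    f n (∑ m ∈ t, f m x • e m) = f n x := by
  rw [map_sum, Finset.sum_eq_single n]
  · rw [map_smul, h.bi, if_pos rfl, smul_eq_mul, mul_one]
  · intro m _ hm
    rw [map_smul, h.bi, if_neg (Ne.symm hm), smul_zero]
  · intro hn'
    exact absurd hn hn'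

/-- multipliers -/
lemma UB.mult (h : UB e f) : ∃ C : ℝ, 0 ≤ C ∧ ∀ (c : ℕ → ℂ) (b : ℝ), (∀ n, ‖c n‖ ≤ b) →
    ∃ A : X →L[ℂ] X, (∀ x, HasSum (fun n => c n • (f n x • e n)) (A x)) ∧ ‖A‖ ≤ b * C := by
  obtain ⟨C, hC0, hC⟩ := h.unif
  refine ⟨C, hC0, fun c b hc => ?_⟩
  have hb : 0 ≤ b := (norm_nonneg _).trans (hc 0)
  have hsum : ∀ x, Summable (fun n => c n • (f n x • e n)) := by
    intro x
    rw [summable_iff_vanishing_norm]
    intro ε hε
    obtain ⟨s, hs⟩ := summable_iff_vanishing_norm.1 (h.sum x).summable (ε / (b * C + 1))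
      (by positivity)
    refine ⟨s, fun t ht => ?_⟩
    have h1 : ∑ n ∈ t, c n • (f n x • e n) = S e f t c (∑ m ∈ t, f m x • e m) := by
      rw [S_apply]
      refine Finset.sum_congr rfl fun n hn => ?_
      rw [h.coef_sum t x n hn]
    rw [h1]
    calc ‖S e f t c (∑ m ∈ t, f m x • e m)‖ ≤ ‖S e f t c‖ * ‖∑ m ∈ t, f m x • e m‖ :=
          (S e f t c).le_opNorm _
      _ ≤ (b * C) * (ε / (b * C + 1)) :=
          mul_le_mul (hC t c b hc) (hs t ht).le (norm_nonneg _) (by positivity)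
      _ < (b * C + 1) * (ε / (b * C + 1)) := by
          have : 0 < ε / (b * C + 1) := by positivity
          nlinarith
      _ = ε := by field_simp
  have hbd : ∀ x, ‖∑' n, c n • (f n x • e n)‖ ≤ b * C * ‖x‖ := by
    intro x
    refine le_of_tendsto (hsum x).hasSum.norm (Eventually.of_forall fun t => ?_)
    rw [← S_apply]
    exact ((S e f t c).le_opNorm x).trans (mul_le_mul_of_nonneg_right (hC t c b hc) (norm_nonneg _))
  let L : X →ₗ[ℂ] X :=
    { toFun := fun x => ∑' n, c n • (f n x • e n)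
      map_add' := fun x y => by
        rw [← (hsum x).tsum_add (hsum y)]
        congr 1
        funext n
        rw [map_add, add_smul, smul_add]
      map_smul' := fun a x => by
        rw [RingHom.id_apply, ← (hsum x).tsum_const_smul a]
        congr 1
        funext n
        rw [map_smul, smul_eq_mul, mul_smul, smul_comm] }
  refine ⟨L.mkContinuous (b * C) hbd, fun x => (hsum x).hasSum, ?_⟩
  exact LinearMap.mkContinuous_norm_le _ (by positivity) _

omit [CompleteSpace X] in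
lemma UB.coef (h : UB e f) {c : ℕ → ℂ} {x y : X} (hy : HasSum (fun n => c n • (f n x • e n)) y)
    (n : ℕ) : f n y = c n * f n x := by
  have h1 := hy.mapL (f n)
  have h2 : HasSum (fun m => f n (c m • (f m x • e m))) (f n (c n • (f n x • e n))) :=
    hasSum_single n fun m hm => by
      rw [map_smul, map_smul, h.bi, if_neg (Ne.symm hm), smul_zero, smul_zero]
  rw [h1.unique h2, map_smul, map_smul, h.bi, if_pos rfl, smul_eq_mul, smul_eq_mul, mul_one]

omit [CompleteSpace X] in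
lemma UB.ext_coef (h : UB e f) {x y : X} (hxy : ∀ n, f n x = f n y) : x = y := by
  have h1 := h.sum x
  have h2 := h.sum y
  simp only [hxy] at h1
  exact h1.unique h2

/-- the limits of multipliers -/
lemma UB.lim (h : UB e f) {C : ℝ} (hC : ∀ (c : ℕ → ℂ) (b : ℝ), (∀ n, ‖c n‖ ≤ b) →
    ∃ A : X →L[ℂ] X, (∀ x, HasSum (fun n => c n • (f n x • e n)) (A x)) ∧ ‖A‖ ≤ b * C)
    (U : Ultrafilter ℕ) (c : ℕ → ℕ → ℂ) (B : ℝ) (hc : ∀ j n, ‖c j n‖ ≤ B) (A : ℕ → (X →L[ℂ] X))
    (hA : ∀ j x, HasSum (fun n => c j n • (f n x • e n)) (A j x)) (hAB : ∀ j, ‖A j‖ ≤ B * C)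
    (u : X) : ∃ y : X, Tendsto (fun j => A j u) U (𝓝 y) := by
  have hlim : ∀ n, ∃ l : ℂ, ‖l‖ ≤ B ∧ Tendsto (fun j => c j n) U (𝓝 l) := by
    intro n
    obtain ⟨l, hl, hl'⟩ := (isCompact_closedBall (0 : ℂ) B).ultrafilter_le_nhds
      (U.map (fun j => c j n)) (by
        rw [le_principal_iff]
        show (fun j => c j n) ⁻¹' (closedBall 0 B) ∈ (U : Filter ℕ)
        refine Filter.univ_mem' fun j => ?_
        rw [mem_preimage, mem_closedBall_zero_iff]
        exact hc j n)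
    exact ⟨l, mem_closedBall_zero_iff.1 hl, hl'⟩
  choose l hl1 hl2 using hlim
  obtain ⟨A', hA'1, hA'2⟩ := hC l B hl1
  have hB0 : 0 ≤ B := (norm_nonneg _).trans (hc 0 0)
  have hBC : 0 ≤ B * C := (norm_nonneg _).trans hA'2
  refine ⟨A' u, ?_⟩
  rw [Metric.tendsto_nhds]
  intro ε hε
  -- the tail
  have h1 : Tendsto (fun s : Finset ℕ => ∑ n ∈ s, f n u • e n) atTop (𝓝 u) := h.sum u
  obtain ⟨s, hs⟩ := ((Metric.tendsto_nhds.1 h1) (ε / (2 * (2 * (B * C) + 1))) (by positivity)).exists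
  rw [dist_eq_norm, ← norm_neg, neg_sub] at hs
  set p : X := ∑ n ∈ s, f n u • e n with hp
  have hfin : Tendsto (fun j => A j p) U (𝓝 (A' p)) := by
    have e1 : ∀ (c' : ℕ → ℂ) (A₀ : X →L[ℂ] X), (∀ x, HasSum (fun n => c' n • (f n x • e n)) (A₀ x)) →
        A₀ p = ∑ n ∈ s, c' n • (f n u • e n) := by
      intro c' A₀ hA₀
      refine h.ext_coef fun m => ?_
      rw [h.coef (hA₀ p)]
      by_cases hm : m ∈ s
      · rw [hp, h.coef_sum s u m hm, map_sum, Finset.sum_eq_single m]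
        · rw [map_smul, map_smul, h.bi, if_pos rfl, smul_eq_mul, smul_eq_mul, mul_one]
        · intro i _ hi
          rw [map_smul, map_smul, h.bi, if_neg (Ne.symm hi), smul_zero, smul_zero]
        · intro hm'
          exact absurd hm hm'
      · have e2 : ∀ g : ℕ → ℂ, f m (∑ n ∈ s, g n • e n) = 0 := by
          intro g
          rw [map_sum]
          refine Finset.sum_eq_zero fun i hi => ?_
          rw [map_smul, h.bi, if_neg (by rintro rfl; exact hm hi), smul_zero]
        simp only [hp, smul_smul]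
        rw [e2, e2, mul_zero]
    rw [e1 l A' hA'1]
    have e3 : (fun j => A j p) = fun j => ∑ n ∈ s, c j n • (f n u • e n) := by
      funext j
      exact e1 (c j) (A j) (hA j)
    rw [e3]
    refine tendsto_finsetSum _ fun n _ => ?_
    exact (hl2 n).smul_const _
  filter_upwards [(Metric.tendsto_nhds.1 hfin) (ε / 2) (by positivity)] with j hj
  rw [dist_eq_norm] at hj ⊢
  have e4 : A j u - A' u = (A j p - A' p) + (A j (u - p) - A' (u - p)) := by
    rw [map_sub, map_sub]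
    abel
  rw [e4]
  have e5 : ‖A j (u - p) - A' (u - p)‖ ≤ 2 * (B * C) * (ε / (2 * (2 * (B * C) + 1))) := by
    calc ‖A j (u - p) - A' (u - p)‖ ≤ ‖A j (u - p)‖ + ‖A' (u - p)‖ := norm_sub_le _ _
      _ ≤ (B * C) * ‖u - p‖ + (B * C) * ‖u - p‖ := add_le_add
          (((A j).le_opNorm _).trans (mul_le_mul_of_nonneg_right (hAB j) (norm_nonneg _)))
          ((A'.le_opNorm _).trans (mul_le_mul_of_nonneg_right hA'2 (norm_nonneg _)))
      _ = 2 * (B * C) * ‖u - p‖ := by ring
      _ ≤ _ := by gcongr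
  have key : ∀ t : ℝ, 0 < t → t * (ε / (2 * t)) = ε / 2 := fun t ht => by field_simp
  have e6 : 2 * (B * C) * (ε / (2 * (2 * (B * C) + 1))) < ε / 2 := by
    calc _ < (2 * (B * C) + 1) * (ε / (2 * (2 * (B * C) + 1))) := by
          have : 0 < ε / (2 * (2 * (B * C) + 1)) := by positivity
          nlinarith
      _ = ε / 2 := key _ (by positivity)
  calc _ ≤ ‖A j p - A' p‖ + ‖A j (u - p) - A' (u - p)‖ := norm_add_le _ _
    _ < ε := by linarith

/-- **Rank one perturbations of diagonal operators.** -/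
theorem diag (h : UB e f) {D T : X →L[ℂ] X} {l : ℕ → ℂ} (hD : ∀ n, D (e n) = l n • e n) {u : X}
    {v : X →L[ℂ] ℂ} (hT : ∀ x, T x = D x + v x • u) :
    ((∃ c : ℂ, T = c • 1) ∨ Pool.Agent.Y283.NK.HasHyp T) ∧ LocV T ∧ LocV (ad T) := by
  obtain ⟨C, hC0, hC⟩ := h.mult
  -- the spectrum
  have he0 : ∀ n, e n ≠ 0 := by
    intro n h0
    have := h.bi n n
    rw [h0, map_zero, if_pos rfl] at this
    exact zero_ne_one this
  have hl : ∀ n, ‖l n‖ ≤ ‖D‖ := by
    intro n
    have h1 := D.le_opNorm (e n)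
    rw [hD, norm_smul] at h1
    exact le_of_mul_le_mul_right h1 (norm_pos_iff.2 (he0 n))
  set K : Set ℂ := closure (range l) with hK
  have hKc : IsCompact K := by
    refine (isCompact_closedBall (0 : ℂ) ‖D‖).of_isClosed_subset isClosed_closure ?_
    refine closure_minimal ?_ isClosed_closedBall
    rintro _ ⟨n, rfl⟩
    rw [mem_closedBall_zero_iff]
    exact hl n
  have : CompactSpace K := isCompact_iff_compactSpace.1 hKc
  let k : ℕ → K := fun n => ⟨l n, subset_closure ⟨n, rfl⟩⟩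
  have hex : ∀ g : C(K, ℂ), ∃ A : X →L[ℂ] X,
      (∀ x, HasSum (fun n => g (k n) • (f n x • e n)) (A x)) ∧ ‖A‖ ≤ ‖g‖ * C := fun g =>
    hC (fun n => g (k n)) ‖g‖ fun n => g.norm_coe_le_norm _
  choose A hA1 hA2 using hex
  have hco : ∀ g x n, f n (A g x) = g (k n) * f n x := fun g x n => h.coef (hA1 g x) n
  let Φ : C(K, ℂ) →ₐ[ℂ] (X →L[ℂ] X) := AlgHom.ofLinearMap
    { toFun := A
      map_add' := fun g g' => by
        ext x
        refine h.ext_coef fun n => ?_
        rw [add_apply, map_add, hco, hco, hco, ContinuousMap.add_apply]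
        ring
      map_smul' := fun c g => by
        ext x
        refine h.ext_coef fun n => ?_
        rw [RingHom.id_apply, smul_apply, map_smul, hco, hco, ContinuousMap.smul_apply,
          smul_eq_mul, smul_eq_mul]
        ring }
    (by
      ext x
      refine h.ext_coef fun n => ?_
      show f n (A 1 x) = f n x
      rw [hco, ContinuousMap.one_apply, one_mul])
    (fun g g' => by
      ext x
      refine h.ext_coef fun n => ?_
      show f n (A (g * g') x) = f n (A g (A g' x))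
      rw [hco, hco, hco, ContinuousMap.mul_apply]
      ring)
  have hΦ : ∀ g, Φ g = A g := fun _ => rfl
  have hDx : ∀ x, HasSum (fun n => l n • (f n x • e n)) (D x) := by
    intro x
    have h1 := (h.sum x).mapL D
    have h2 : (fun n => l n • (f n x • e n)) = fun n => D (f n x • e n) := by
      funext n
      rw [map_smul, hD, smul_comm]
    rw [h2]
    exact h1
  have hF : FC Φ D C := by
    refine ⟨hC0, fun g => ?_, ?_⟩
    · rw [hΦ, mul_comm]
      exact hA2 g
    · ext x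
      refine h.ext_coef fun n => ?_
      rw [hΦ, hco, h.coef (hDx x)]
      rfl
  refine main hF hT ?_
  intro U g B C' hB hC'
  obtain ⟨y, hy⟩ := h.lim hC U (fun j n => g j (k n)) B
    (fun j n => ((g j).norm_coe_le_norm _).trans (hB j)) (fun j => A (g j)) (fun j => hA1 (g j))
    (fun j => (hA2 (g j)).trans (mul_le_mul_of_nonneg_right (hB j) hC0)) u
  refine ⟨y, le_of_tendsto hy.norm (Eventually.of_forall hC'), fun f' _ => ?_⟩
  exact (f'.continuous.tendsto y).comp hy

end complete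

end Pool.Agent.R277.SP
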