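import Pool.Agent.R277.SP.Cal

/-!
# Rank one perturbations of scalar type operators on Banach spaces: zero sets, powers
-/

set_option autoImplicit false

namespace Pool.Agent.R277.SP

open MeasureTheory Set Metric Filter Topology
open scoped ENNReal NNReal ComplexConjugate ContDiff
open Pool.Agent.Y283.NK (ct IsMul HasHyp)
open Pool.Agent.Y271.RO (db ht Bd ff S_HT S_CTG S_POM)

variable {E : Type} [NormedAddCommGroup E] [NormedSpace ℂ E] {K : Set ℂ}
  [CompactSpace K] {Φ : C(K, ℂ) →ₐ[ℂ] (E →L[ℂ] E)} {N : E →L[ℂ] E} {M : ℝ}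
  {μ : Measure K} [IsFiniteMeasure μ] {w d : Lp ℂ 2 μ}

lemma bdp {a : ℂ} {r : ℝ} {G : ℂ → ℂ} {B : ℝ} (hr : 0 < r) (hG : Bd G a r B) (k : ℕ) :
    Bd (fun z => (z - a) ^ k * G z) a r (r ^ k * B) := by
  refine ⟨((measurable_id.sub_const a).pow_const k).mul hG.meas,
    mul_nonneg (by positivity) hG.nonneg, ?_, ?_⟩
  · intro z
    by_cases hz : z ∈ ball a r
    · show ‖(z - a) ^ k * G z‖ ≤ r ^ k * B
      rw [norm_mul, norm_pow]
      have h1 : ‖z - a‖ ≤ r := by
        rw [mem_ball, dist_eq_norm] at hz
        exact hz.le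
      exact mul_le_mul (pow_le_pow_left₀ (norm_nonneg _) h1 k) (hG.bd z) (norm_nonneg _)
        (by positivity)
    · show ‖(z - a) ^ k * G z‖ ≤ r ^ k * B
      rw [hG.supp z hz, mul_zero, norm_zero]
      exact mul_nonneg (by positivity) hG.nonneg
  · intro z hz
    show (z - a) ^ k * G z = 0
    rw [hG.supp z hz, mul_zero]

/-- the functions `f` and `ct` are measurable and locally integrable -/
lemma ff_meas : Measurable (ff (Subtype.val : K → ℂ) d w) ∧
    LocallyIntegrable (ff (Subtype.val : K → ℂ) d w) := by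
  obtain ⟨h1, h2, -⟩ := hCTG K μ Subtype.val val_meas w d
  unfold ff
  exact ⟨measurable_const.sub h1, (locallyIntegrable_const 1).sub h2⟩

/-- the case that `f` vanishes on a set of positive area -/
theorem zero_case (hF : FC Φ N M) {u : E} {v : E →L[ℂ] ℂ} (hm : Mo Φ u v μ w d)
    {T : E →L[ℂ] E} (hT : ∀ x, T x = N x + v x • u) {a : ℂ} {r : ℝ} (hr : 0 < r)
    (hne : ¬ ∀ᵐ z ∂(volume.restrict (ball a r)), ff (Subtype.val : K → ℂ) d w z ≠ 0) :
    HC T a r := by
  classical
  set f := ff (Subtype.val : K → ℂ) d w with hf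
  have hfm : Measurable f := ff_meas.1
  set A : Set ℂ := ball a r ∩ {z | f z = 0} with hA
  have hAm : MeasurableSet A := measurableSet_ball.inter (hfm (measurableSet_singleton 0))
  have hA0 : volume A ≠ 0 := by
    intro h0
    apply hne
    rw [ae_restrict_iff' measurableSet_ball, ae_iff]
    refine measure_mono_null ?_ h0
    intro z hz
    simp only [mem_ofPred_eq, Classical.not_imp, not_not] at hz
    exact hz
  have hAt : volume A ≠ ⊤ := ne_top_of_le_ne_top measure_ball_lt_top.ne (measure_mono inter_subset_left)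
  set g : ℂ → ℂ := A.indicator 1 with hg
  have hgB : Bd g a r 1 := by
    refine ⟨measurable_one.indicator hAm, zero_le_one, fun z => ?_, fun z hz => ?_⟩
    · rw [hg, indicator_apply]
      split_ifs <;> simp
    · exact indicator_of_notMem (fun h => hz h.1) _
  have hgf : ∀ k : ℕ, ∀ z, (z - a) ^ k * g z * f z = 0 := by
    intro k z
    rw [hg, indicator_apply]
    split_ifs with h
    · rw [h.2, mul_zero]
    · rw [mul_zero, zero_mul]
  obtain ⟨R, hR0, hR⟩ := hF.Y_bd hr
  refine ⟨fun k => Y Φ (fun z => (z - a) ^ k * g z) u, ⟨fun k => ?_, M * (R * 1) * ‖u‖, fun k => ?_⟩,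
    ?_⟩
  · obtain ⟨-, h2⟩ := hF.Y_step hm hT hr (bdp hr hgB k)
    rw [h2]
    have e1 : ∫ z, (z - a) ^ k * g z * f z = 0 := by
      simp_rw [hgf k]
      exact integral_zero _ _
    rw [← hf, e1, zero_smul, sub_zero]
    congr 1
    funext z
    ring
  · refine ((hR a _ _ (bdp hr hgB k) u).1).trans (le_of_eq ?_)
    ring
  · intro h0
    have h1 : v (Y Φ g u) = 0 := by
      have : (fun z => (z - a) ^ 0 * g z) = g := by
        funext z
        rw [pow_zero, one_mul]
      simp only [this] at h0
      rw [h0, map_zero]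
    unfold Y at h1
    rw [(hm.ht hgB).2] at h1
    have h2 : ∫ z, g z * ct (Subtype.val : K → ℂ) w d z = ∫ z, g z := by
      congr 1
      funext z
      have := hgf 0 z
      rw [pow_zero, one_mul, hf] at this
      unfold ff at this
      linear_combination -this
    rw [h2, hg, integral_indicator hAm] at h1
    simp only [Pi.one_apply, integral_const, MeasurableSet.univ, measureReal_restrict_apply,
      univ_inter, smul_eq_mul, Complex.real_smul, mul_one] at h1
    have h3 : volume.real A = 0 := by exact_mod_cast h1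
    rw [Measure.real, ENNReal.toReal_eq_zero_iff] at h3
    rcases h3 with h3 | h3
    · exact hA0 h3
    · exact hAt h3

end Pool.Agent.R277.SP
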